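import Pool.Agent.Q193.MC.Lift

/-!
# The surface is compact and connected
-/

set_option autoImplicit false

open scoped Topology

namespace Pool.Agent.Q193.MC

theorem surf_compact : IsCompact surf := by
  apply Metric.isCompact_of_isClosed_isBounded surf_closed
  apply (Metric.isBounded_closedBall (x := (0 : ℂ)) (r := 8)).subset
  intro z hz
  rw [Metric.mem_closedBall, dist_zero_right]
  exact hz.2.1

/-- The distance of `r e^{iθ}` to a point of the positive axis. -/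
theorem norm_sub_sq (r θ c : ℝ) :
    ‖(r : ℂ) * Complex.exp (θ * Complex.I) - c‖ ^ 2 = r ^ 2 + c ^ 2 - 2 * r * c * Real.cos θ := by
  rw [← Complex.normSq_eq_norm_sq, Complex.normSq_apply]
  have e1 : ((r : ℂ) * Complex.exp (θ * Complex.I) - c).re = r * Real.cos θ - c := by
    rw [Complex.sub_re, Complex.re_ofReal_mul, Complex.exp_ofReal_mul_I_re, Complex.ofReal_re]
  have e2 : ((r : ℂ) * Complex.exp (θ * Complex.I) - c).im = r * Real.sin θ := by
    rw [Complex.sub_im, Complex.im_ofReal_mul, Complex.exp_ofReal_mul_I_im, Complex.ofReal_im,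
      sub_zero]
  rw [e1, e2]
  have := Real.sin_sq_add_cos_sq θ
  linear_combination r ^ 2 * this

theorem norm_polar {r θ : ℝ} (hr : 0 ≤ r) : ‖(r : ℂ) * Complex.exp (θ * Complex.I)‖ = r := by
  rw [norm_mul, Complex.norm_exp_ofReal_mul_I, mul_one, Complex.norm_real, Real.norm_eq_abs,
    abs_of_nonneg hr]

theorem far_of_far {r θ θ' c : ℝ} (hr : 0 ≤ r) (hc : 0 ≤ c) (h : Real.cos θ' ≤ Real.cos θ) :
    ‖(r : ℂ) * Complex.exp (θ * Complex.I) - c‖ ≤ ‖(r : ℂ) * Complex.exp (θ' * Complex.I) - c‖ := by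
  have h1 := norm_sub_sq r θ c
  have h2 := norm_sub_sq r θ' c
  have h3 : ‖(r : ℂ) * Complex.exp (θ * Complex.I) - c‖ ^ 2 ≤
      ‖(r : ℂ) * Complex.exp (θ' * Complex.I) - c‖ ^ 2 := by
    rw [h1, h2]
    have : 0 ≤ 2 * r * c := by positivity
    nlinarith
  exact (pow_le_pow_iff_left₀ (norm_nonneg _) (norm_nonneg _) two_ne_zero).1 h3

theorem surf_rot {r θ θ' : ℝ} (hr : 0 ≤ r) (h : Real.cos θ' ≤ Real.cos θ)
    (hz : (r : ℂ) * Complex.exp (θ * Complex.I) ∈ surf) :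
    (r : ℂ) * Complex.exp (θ' * Complex.I) ∈ surf := by
  obtain ⟨h1, h2, h3, h4⟩ := hz
  rw [norm_polar hr] at h1 h2
  refine ⟨by rwa [norm_polar hr], by rwa [norm_polar hr], ?_, ?_⟩
  · refine h3.trans ?_
    have := far_of_far (c := 1 / 2) hr (by norm_num) h
    push_cast at this
    exact this
  · refine h4.trans ?_
    have := far_of_far (c := 2) hr (by norm_num) h
    push_cast at this
    exact this

theorem surf_connected : IsConnected surf := by
  have hm1 : (-1 : ℂ) ∈ surf := by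
    refine ⟨?_, ?_, ?_, ?_⟩
    · norm_num
    · norm_num
    · norm_num
    · norm_num
  refine ⟨⟨-1, hm1⟩, isPreconnected_of_forall (-1 : ℂ) fun z hz => ?_⟩
  -- the segment of the negative axis
  have hseg : IsPreconnected ((fun t : ℝ => (t : ℂ)) '' Set.Icc (-8) (-1 / 8)) :=
    isPreconnected_Icc.image _ (by fun_prop)
  have hseg_surf : (fun t : ℝ => (t : ℂ)) '' Set.Icc (-8) (-1 / 8) ⊆ surf := by
    rintro _ ⟨x, ⟨h1, h2⟩, rfl⟩
    have e1 : ‖(x : ℂ)‖ = |x| := by rw [Complex.norm_real, Real.norm_eq_abs]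
    have e2 : ‖(x : ℂ) - 1 / 2‖ = |x - 1 / 2| := by
      rw [← Real.norm_eq_abs, ← Complex.norm_real]; push_cast; rfl
    have e3 : ‖(x : ℂ) - 2‖ = |x - 2| := by
      rw [← Real.norm_eq_abs, ← Complex.norm_real]; push_cast; rfl
    refine ⟨?_, ?_, ?_, ?_⟩
    · simp only [e1]; rw [abs_of_neg (by linarith)]; linarith
    · simp only [e1]; rw [abs_of_neg (by linarith)]; linarith
    · simp only [e2]; rw [abs_of_neg (by linarith)]; linarith
    · simp only [e3]; rw [abs_of_neg (by linarith)]; linarith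
  obtain ⟨r, hr⟩ : ∃ r : ℝ, r = ‖z‖ := ⟨_, rfl⟩
  have hr0 : 0 ≤ r := by rw [hr]; exact norm_nonneg _
  have hz1 := hz.1
  have hz2 := hz.2.1
  rw [← hr] at hz1 hz2
  have hpolar : z = (r : ℂ) * Complex.exp (z.arg * Complex.I) := by
    rw [hr, Complex.norm_mul_exp_arg_mul_I]
  have hneg : -(r : ℂ) ∈ (fun t : ℝ => (t : ℂ)) '' Set.Icc (-8) (-1 / 8) :=
    ⟨-r, ⟨by linarith, by linarith⟩, by push_cast; rfl⟩
  have hm1' : (-1 : ℂ) ∈ (fun t : ℝ => (t : ℂ)) '' Set.Icc (-8) (-1 / 8) :=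
    ⟨-1, ⟨by norm_num, by norm_num⟩, by push_cast; rfl⟩
  rcases le_or_gt 0 z.arg with harg | harg
  · refine ⟨(fun t : ℝ => (t : ℂ)) '' Set.Icc (-8) (-1 / 8) ∪
      (fun θ : ℝ => (r : ℂ) * Complex.exp (θ * Complex.I)) '' Set.Icc z.arg Real.pi, ?_, ?_, ?_, ?_⟩
    · apply Set.union_subset hseg_surf
      rintro _ ⟨θ, ⟨h1, h2⟩, rfl⟩
      refine surf_rot hr0 ?_ (hpolar ▸ hz)
      exact Real.cos_le_cos_of_nonneg_of_le_pi harg h2 h1
    · left; exact hm1'
    · right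
      exact ⟨z.arg, ⟨le_rfl, Complex.arg_le_pi z⟩, hpolar.symm⟩
    · refine IsPreconnected.union (-(r : ℂ)) hneg ?_ hseg (isPreconnected_Icc.image _ (by fun_prop))
      refine ⟨Real.pi, ⟨Complex.arg_le_pi z, le_rfl⟩, ?_⟩
      simp only
      rw [Complex.exp_pi_mul_I]
      ring
  · refine ⟨(fun t : ℝ => (t : ℂ)) '' Set.Icc (-8) (-1 / 8) ∪
      (fun θ : ℝ => (r : ℂ) * Complex.exp (θ * Complex.I)) '' Set.Icc (-Real.pi) z.arg,
      ?_, ?_, ?_, ?_⟩
    · apply Set.union_subset hseg_surf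
      rintro _ ⟨θ, ⟨h1, h2⟩, rfl⟩
      refine surf_rot hr0 ?_ (hpolar ▸ hz)
      rw [← Real.cos_neg θ, ← Real.cos_neg z.arg]
      exact Real.cos_le_cos_of_nonneg_of_le_pi (by linarith) (by linarith) (by linarith)
    · left; exact hm1'
    · right
      exact ⟨z.arg, ⟨(Complex.neg_pi_lt_arg z).le, le_rfl⟩, hpolar.symm⟩
    · refine IsPreconnected.union (-(r : ℂ)) hneg ?_ hseg (isPreconnected_Icc.image _ (by fun_prop))
      refine ⟨-Real.pi, ⟨le_rfl, (Complex.neg_pi_lt_arg z).le⟩, ?_⟩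
      simp only
      have : (((-Real.pi : ℝ) : ℂ) * Complex.I) = -(Real.pi * Complex.I) := by push_cast; ring
      rw [this, Complex.exp_neg, Complex.exp_pi_mul_I]
      norm_num

end Pool.Agent.Q193.MC
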