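import Mathlib

/-!
# Mapping class groups of surfaces, stabilisers of maps to the circle

* `homeoRel X B`: the homeomorphisms of `X` which fix `B` pointwise,
* `isoSub X B`: those which are isotopic to the identity (through such homeomorphisms),
* `MCG X B`: the quotient,
* `mcgStab X B P hP f`: the subgroup of the mapping classes which preserve the homotopy class of
  `f : X → Y` relative to the set `P ⊆ B`, `StabGroup X B P hP f`: this group,
* `FinGenH1 Γ`: the group `H₁(Γ; ℤ)` is finitely generated,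
* `FiniteHomologicalType Γ`: the group `Γ` has finite homological type,
* `surf`: a sphere with four holes in the complex plane, `bdry` its boundary, `marks` a point on
  each boundary component, `angle : surf → S¹` the map `z ↦ z / |z|`.
-/

set_option autoImplicit false

open scoped unitInterval Topology

namespace Pool.Agent.Q193.MC

section general

variable (X : Type) [TopologicalSpace X] (B : Set X)

/-- The homeomorphisms of `X` which fix each point of `B`. -/
def homeoRel : Subgroup (X ≃ₜ X) where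
  carrier := {ρ | ∀ x ∈ B, ρ x = x}
  mul_mem' := fun {ρ _} hρ hτ x hx => (congrArg ρ (hτ x hx)).trans (hρ x hx)
  one_mem' := fun _ _ => rfl
  inv_mem' := fun {ρ} hρ x hx => (ρ.symm_apply_eq).2 (hρ x hx).symm

/-- `ρ` is isotopic to the identity, through homeomorphisms which fix each point of `B`. -/
def IsoId (ρ : homeoRel X B) : Prop :=
  ∃ H : C(I × X, X), (∀ x, H (0, x) = x) ∧ (∀ x, H (1, x) = ρ.1 x) ∧
    ∀ t, ∃ h : homeoRel X B, ∀ x, H (t, x) = h.1 x

variable {X B}

theorem IsoId.mul {ρ τ : homeoRel X B} (hρ : IsoId X B ρ) (hτ : IsoId X B τ) :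
    IsoId X B (ρ * τ) := by
  obtain ⟨H, h0, h1, h2⟩ := hρ
  obtain ⟨K, k0, k1, k2⟩ := hτ
  refine ⟨⟨fun x => H (x.1, K x), by fun_prop⟩, fun x => ?_, fun x => ?_, fun t => ?_⟩
  · change H (0, K (0, x)) = x
    rw [k0, h0]
  · change H (1, K (1, x)) = ρ.1 (τ.1 x)
    rw [k1, h1]
  · obtain ⟨h, hh⟩ := h2 t
    obtain ⟨k, hk⟩ := k2 t
    refine ⟨h * k, fun x => ?_⟩
    change H (t, K (t, x)) = h.1 (k.1 x)
    rw [hk, hh]

theorem IsoId.one : IsoId X B 1 :=
  ⟨⟨fun x => x.2, by fun_prop⟩, fun x => rfl, fun x => rfl, fun t => ⟨1, fun x => rfl⟩⟩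

theorem IsoId.inv {ρ : homeoRel X B} (hρ : IsoId X B ρ) : IsoId X B ρ⁻¹ := by
  obtain ⟨H, h0, h1, h2⟩ := hρ
  refine ⟨⟨fun x => (ρ⁻¹ : homeoRel X B).1 (H (unitInterval.symm x.1, x.2)), ?_⟩,
    fun x => ?_, fun x => ?_, fun t => ?_⟩
  · have := (ρ⁻¹ : homeoRel X B).1.continuous
    fun_prop
  · change (ρ⁻¹ : homeoRel X B).1 (H (unitInterval.symm 0, x)) = x
    rw [unitInterval.symm_zero, h1]
    exact ρ.1.symm_apply_apply x
  · change (ρ⁻¹ : homeoRel X B).1 (H (unitInterval.symm 1, x)) = (ρ⁻¹ : homeoRel X B).1 x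
    rw [unitInterval.symm_one, h0]
  · obtain ⟨h, hh⟩ := h2 (unitInterval.symm t)
    refine ⟨ρ⁻¹ * h, fun x => ?_⟩
    change (ρ⁻¹ : homeoRel X B).1 (H (unitInterval.symm t, x)) = (ρ⁻¹ : homeoRel X B).1 (h.1 x)
    rw [hh]

theorem IsoId.conj {ρ : homeoRel X B} (hρ : IsoId X B ρ) (g : homeoRel X B) :
    IsoId X B (g * ρ * g⁻¹) := by
  obtain ⟨H, h0, h1, h2⟩ := hρ
  refine ⟨⟨fun x => g.1 (H (x.1, (g⁻¹ : homeoRel X B).1 x.2)), ?_⟩,
    fun x => ?_, fun x => ?_, fun t => ?_⟩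
  · have := (g⁻¹ : homeoRel X B).1.continuous
    have := g.1.continuous
    fun_prop
  · change g.1 (H (0, (g⁻¹ : homeoRel X B).1 x)) = x
    rw [h0]
    exact g.1.apply_symm_apply x
  · change g.1 (H (1, (g⁻¹ : homeoRel X B).1 x)) = g.1 (ρ.1 ((g⁻¹ : homeoRel X B).1 x))
    rw [h1]
  · obtain ⟨h, hh⟩ := h2 t
    refine ⟨g * h * g⁻¹, fun x => ?_⟩
    change g.1 (H (t, (g⁻¹ : homeoRel X B).1 x)) = g.1 (h.1 ((g⁻¹ : homeoRel X B).1 x))
    rw [hh]

variable (X B)

/-- The homeomorphisms isotopic to the identity. -/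
def isoSub : Subgroup (homeoRel X B) where
  carrier := {ρ | IsoId X B ρ}
  mul_mem' := IsoId.mul
  one_mem' := IsoId.one
  inv_mem' := IsoId.inv

instance isoSub_normal : (isoSub X B).Normal := ⟨fun _ hρ g => IsoId.conj hρ g⟩

/-- The mapping class group of `X` relative to `B`. -/
abbrev MCG : Type := homeoRel X B ⧸ isoSub X B

variable {Y : Type} [TopologicalSpace Y] (P : Set X) (f : C(X, Y))

/-- `f ∘ ρ⁻¹` is homotopic to `f` relative to `P`. -/
def Pres (ρ : homeoRel X B) : Prop :=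
  (f.comp ((ρ⁻¹ : homeoRel X B).1 : C(X, X))).HomotopicRel f P

variable {X B P f}

theorem Pres.mul (hP : P ⊆ B) {ρ τ : homeoRel X B} (hρ : Pres X B P f ρ) (hτ : Pres X B P f τ) :
    Pres X B P f (ρ * τ) := by
  obtain ⟨F⟩ := hρ
  obtain ⟨G⟩ := hτ
  refine ContinuousMap.HomotopicRel.trans (g := f.comp ((ρ⁻¹ : homeoRel X B).1 : C(X, X)))
    ⟨?_⟩ ⟨F⟩
  refine
    { toFun := fun x => G (x.1, (ρ⁻¹ : homeoRel X B).1 x.2)
      continuous_toFun := ?_
      map_zero_left := fun x => ?_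
      map_one_left := fun x => ?_
      prop' := fun t x hx => ?_ }
  · have := (ρ⁻¹ : homeoRel X B).1.continuous
    have := G.continuous
    fun_prop
  · change G (0, (ρ⁻¹ : homeoRel X B).1 x) = _
    rw [G.apply_zero]
    rfl
  · change G (1, (ρ⁻¹ : homeoRel X B).1 x) = _
    rw [G.apply_one]
    rfl
  · change G (t, (ρ⁻¹ : homeoRel X B).1 x) = _
    have h1 : (ρ⁻¹ : homeoRel X B).1 x = x := (ρ⁻¹ : homeoRel X B).2 x (hP hx)
    rw [h1, G.eq_fst t hx]
    change f ((τ⁻¹ : homeoRel X B).1 x) = f ((τ⁻¹ : homeoRel X B).1 ((ρ⁻¹ : homeoRel X B).1 x))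
    rw [h1]

theorem Pres.one : Pres X B P f 1 := ContinuousMap.HomotopicRel.refl _

theorem Pres.inv (hP : P ⊆ B) {ρ : homeoRel X B} (hρ : Pres X B P f ρ) :
    Pres X B P f ρ⁻¹ := by
  obtain ⟨F⟩ := hρ
  refine ContinuousMap.HomotopicRel.symm ⟨?_⟩
  refine
    { toFun := fun x => F (x.1, ρ.1 x.2)
      continuous_toFun := ?_
      map_zero_left := fun x => ?_
      map_one_left := fun x => ?_
      prop' := fun t x hx => ?_ }
  · have := ρ.1.continuous
    have := F.continuous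
    fun_prop
  · change F (0, ρ.1 x) = _
    rw [F.apply_zero]
    change f (ρ.1.symm (ρ.1 x)) = f x
    rw [Homeomorph.symm_apply_apply]
  · change F (1, ρ.1 x) = _
    rw [F.apply_one]
    rw [inv_inv]
    rfl
  · change F (t, ρ.1 x) = f x
    have h1 : ρ.1 x = x := ρ.2 x (hP hx)
    rw [h1, F.eq_fst t hx]
    change f ((ρ⁻¹ : homeoRel X B).1 x) = f x
    rw [(ρ⁻¹ : homeoRel X B).2 x (hP hx)]

variable (X B)

/-- The homeomorphisms `ρ` for which `f ∘ ρ⁻¹` is homotopic to `f` relative to `P`. -/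
def stabHomeo (P : Set X) (hP : P ⊆ B) (f : C(X, Y)) : Subgroup (homeoRel X B) where
  carrier := {ρ | Pres X B P f ρ}
  mul_mem' := Pres.mul hP
  one_mem' := Pres.one
  inv_mem' := Pres.inv hP

/-- The stabiliser in the mapping class group of the homotopy class of `f` relative to `P`. -/
def mcgStab (P : Set X) (hP : P ⊆ B) (f : C(X, Y)) : Subgroup (MCG X B) := (stabHomeo X B P hP f).map (QuotientGroup.mk' (isoSub X B))

/-- The stabiliser of the class of `f`, as a group. -/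
def StabGroup (P : Set X) (hP : P ⊆ B) (f : C(X, Y)) : Type := mcgStab X B P hP f

instance instGroupStab (P : Set X) (hP : P ⊆ B) (f : C(X, Y)) : Group (StabGroup X B P hP f) :=
  inferInstanceAs (Group (mcgStab X B P hP f))

end general

/-- The first homology group of `Γ` with integral coefficients is finitely generated. -/
def FinGenH1 (Γ : Type) [Group Γ] : Prop :=
  Module.Finite ℤ (groupHomology (Rep.trivial ℤ Γ ℤ) 1)

/-- The group `Γ` has finite cohomological dimension. -/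
def FinCd (Γ : Type) [Group Γ] : Prop :=
  ∃ n : ℕ, ∀ (M : Rep ℤ Γ) (i : ℕ), n < i → Subsingleton (groupCohomology M i)

/-- The group `Γ` has finite virtual cohomological dimension. -/
def FinVcd (Γ : Type) [Group Γ] : Prop := ∃ Δ : Subgroup Γ, Δ.FiniteIndex ∧ FinCd Δ

/-- The group `Γ` has finite homological type. -/
def FiniteHomologicalType (Γ : Type) [Group Γ] : Prop :=
  FinVcd Γ ∧ ∀ M : Rep ℤ Γ, Module.Finite ℤ M → ∀ i : ℕ, Module.Finite ℤ (groupHomology M i)

/-- A sphere with four holes: the annulus `1/8 ≤ |z| ≤ 8` without the open discs with centres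
`1/2`, `2` and radii `1/8`, `1/2`. -/
def surf : Set ℂ := {z | 1 / 8 ≤ ‖z‖ ∧ ‖z‖ ≤ 8 ∧ 1 / 8 ≤ ‖z - 1 / 2‖ ∧ 1 / 2 ≤ ‖z - 2‖}

/-- The boundary of the surface: four circles. -/
def bdry : Set surf :=
  {z | ‖(z : ℂ)‖ = 1 / 8 ∨ ‖(z : ℂ)‖ = 8 ∨ ‖(z : ℂ) - 1 / 2‖ = 1 / 8 ∨ ‖(z : ℂ) - 2‖ = 1 / 2}

/-- The marked points: one point on each boundary circle. -/
def marks : Set surf := {z | (z : ℂ) = 1 / 8 ∨ (z : ℂ) = 8 ∨ (z : ℂ) = 3 / 8 ∨ (z : ℂ) = 5 / 2}

theorem marks_subset : marks ⊆ bdry := by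
  rintro z (h | h | h | h)
  · left; rw [h]; norm_num
  · right; left; rw [h]; norm_num
  · right; right; left; rw [h]; norm_num
  · right; right; right; rw [h]; norm_num

theorem surf_ne_zero (z : surf) : (z : ℂ) ≠ 0 := by
  intro h
  have := z.2.1
  rw [h, norm_zero] at this
  norm_num at this

theorem angle_mem (z : surf) : (z : ℂ) / ‖(z : ℂ)‖ ∈ Submonoid.unitSphere ℂ := by
  change _ ∈ Metric.sphere (0 : ℂ) 1
  rw [mem_sphere_zero_iff_norm, norm_div, Complex.norm_real, norm_norm, div_self]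
  exact norm_ne_zero_iff.2 (surf_ne_zero z)

theorem angle_cont : Continuous fun z : surf => (⟨(z : ℂ) / ‖(z : ℂ)‖, angle_mem z⟩ : Circle) := by
  refine Continuous.subtype_mk ?_ _
  refine Continuous.div (by fun_prop) (by fun_prop) fun z => ?_
  exact_mod_cast norm_ne_zero_iff.2 (surf_ne_zero z)

/-- The map `z ↦ z / |z|` from the surface to the circle. -/
noncomputable def angle : C(surf, Circle) := ⟨_, angle_cont⟩

end Pool.Agent.Q193.MC
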