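import Pool.Agent.Q193.MC.Twist

/-!
# The elements `S k * tw * S (-k)`
-/

set_option autoImplicit false

open scoped unitInterval Topology
open Complex (exp log)

namespace Pool.Agent.Q193.MC

/-- The twist along the curve which winds `k` times. -/
noncomputable def elt (k : ℤ) : homeoRel surf bdry :=
  ⟨Sk k, Sk_bdry k⟩ * ⟨tw 1, tw_bdry 1⟩ * ⟨Sk (-k), Sk_bdry (-k)⟩

/-- Its lift. -/
noncomputable def eltu (k : ℤ) (w : ℂ) : ℂ := Sku k (twu 1 (Sku (-k) w))

theorem elt_apply (k : ℤ) (z : surf) : ((elt k).1 z : ℂ) = Skd k (twd 1 (Skd (-k) z)) := rfl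

theorem Sku_of_phi {k : ℤ} {w : ℂ} (h : phi ‖exp w‖ = 0 ∨ phi ‖exp w‖ = 1) :
    ∃ j : ℤ, ∀ n : ℤ, Sku (n * k) w = w + (n * j : ℤ) * per := by
  rcases h with h | h
  · refine ⟨0, fun n => ?_⟩
    unfold Sku
    rw [norm_exp_re, h]
    simp
  · refine ⟨k, fun n => ?_⟩
    unfold Sku
    rw [norm_exp_re, h]
    simp

theorem lift_elt (k : ℤ) : Lift (elt k).1 (eltu k) where
  cont := (continuous_Sku k).comp ((continuous_twu 1).comp (continuous_Sku (-k)))
  cover w h := by
    rw [elt_apply]
    unfold eltu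
    rw [exp_Sku]
    congr 1
    have h1 : exp (Sku (-k) w) = Skd (-k) (exp w) := exp_Sku _ _
    have h2 : exp (Sku (-k) w) ∈ surf := by rw [h1]; exact Skd_surf _ h
    have h3 := (lift_tw 1).cover _ h2
    rw [h3]
    change twd 1 (exp (Sku (-k) w)) = _
    rw [h1]
  fix w h := by
    unfold eltu
    obtain ⟨j, hj⟩ := Sku_of_phi (k := k) (w := w) (phi_outB h)
    have h1 : Sku (-k) w = w + ((-1 * j : ℤ) : ℂ) * per := by
      have := hj (-1)
      rwa [neg_one_mul] at this
    have h2 : exp (Sku (-k) w) = exp w := by rw [h1, exp_int_per]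
    have h3 : exp (Sku (-k) w) ∈ outB := by rwa [h2]
    rw [(lift_tw 1).fix _ h3, Sku_add, add_neg_cancel, Sku_zero]
  per w := by
    unfold eltu
    rw [Sku_per, (lift_tw 1).per, Sku_per]

/-- A homeomorphism with a lift is in the stabiliser. -/
theorem stab_of_lift {ρ : homeoRel surf bdry} {R : ℂ → ℂ} (hR : Lift ρ.1 R) :
    ρ ∈ stabHomeo surf bdry marks marks_subset angle := by
  -- the logarithm descends
  obtain ⟨L, hLdef⟩ : ∃ L : ℂ → ℂ, L = fun w => R w - w := ⟨_, rfl⟩
  have hL : Continuous L := by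
    rw [hLdef]
    have := hR.cont
    fun_prop
  have hper : Function.Periodic L per := by
    intro w
    rw [hLdef]
    simp only
    rw [hR.per]
    ring
  have hkey : ∀ w : ℂ, L (log (exp w)) = L w := by
    intro w
    obtain ⟨n, hn⟩ := exp_eq.1 (Complex.exp_log (Complex.exp_ne_zero w))
    rw [hn]
    exact hper.int_mul n w
  have hquot : Topology.IsQuotientMap fun z : ℂ => (⟨exp z, z.exp_ne_zero⟩ : {z : ℂ // z ≠ 0}) := by
    apply Complex.isCoveringMap_exp.isQuotientMap
    rintro ⟨z, hz⟩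
    exact ⟨log z, Subtype.ext (Complex.exp_log hz)⟩
  have hl : Continuous fun z : {z : ℂ // z ≠ 0} => L (log z) := by
    rw [hquot.continuous_iff]
    refine hL.congr fun w => ?_
    exact (hkey w).symm
  have hl' : Continuous fun z : surf => (L (log (z : ℂ))).im := by
    have h1 : Continuous fun z : surf => (⟨(z : ℂ), surf_ne_zero z⟩ : {z : ℂ // z ≠ 0}) :=
      Continuous.subtype_mk continuous_subtype_val _
    exact Complex.continuous_im.comp (hl.comp h1)
  have hbd : ∀ z : surf, z ∈ bdry → L (log (z : ℂ)) = 0 := by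
    intro z hz
    have h1 : exp (log (z : ℂ)) ∈ outB := by
      rw [Complex.exp_log (surf_ne_zero z)]
      exact mem_outB_of_bdry hz
    rw [hLdef]
    simp only
    rw [hR.fix _ h1, sub_self]
  -- the homotopy from `angle` to `angle ∘ ρ`
  have hinv : ρ⁻¹ ∈ stabHomeo surf bdry marks marks_subset angle := by
    refine ContinuousMap.HomotopicRel.symm ⟨?_⟩
    refine
      { toFun := fun x => angle x.2 * Circle.exp (x.1 * (L (log (x.2 : ℂ))).im)
        continuous_toFun := ?_
        map_zero_left := fun z => ?_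
        map_one_left := fun z => ?_
        prop' := fun t z hz => ?_ }
    · have h1 := angle.continuous
      have h2 := Circle.exp.continuous
      have h3 : Continuous fun x : I × surf => (x.1 : ℝ) * (L (log (x.2 : ℂ))).im :=
        (by fun_prop : Continuous fun x : I × surf => (x.1 : ℝ)).mul
          (hl'.comp continuous_snd)
      exact (h1.comp continuous_snd).mul (h2.comp h3)
    · simp
    · simp only [Set.Icc.coe_one, one_mul]
      change _ = angle (((ρ⁻¹)⁻¹ : homeoRel surf bdry).1 z)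
      rw [inv_inv]
      have h1 : (z : ℂ) = exp (log (z : ℂ)) := (Complex.exp_log (surf_ne_zero z)).symm
      have h2 : exp (log (z : ℂ)) ∈ surf := by rw [← h1]; exact z.2
      have h3 := hR.cover _ h2
      have h4 : (⟨exp (log (z : ℂ)), h2⟩ : surf) = z := Subtype.ext h1.symm
      rw [h4] at h3
      rw [angle_exp h1, angle_exp h3.symm, ← Circle.exp_add]
      congr 1
      rw [hLdef]
      simp
    · change angle z * Circle.exp (t * (L (log (z : ℂ))).im) = angle z
      rw [hbd z (marks_subset hz)]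
      simp
  have := (stabHomeo surf bdry marks marks_subset angle).inv_mem hinv
  rwa [inv_inv] at this

theorem elt_mem (k : ℤ) : elt k ∈ stabHomeo surf bdry marks marks_subset angle :=
  stab_of_lift (lift_elt k)

/-! ### The winding of the twist -/

theorem twu_of {w : ℂ} (h : ‖log (exp w)‖ ≤ 1 ∨ 2 ≤ ‖log (exp w)‖) : twu 1 w = w := by
  unfold twu
  rw [lam_of h, add_zero]

theorem twu_right {w : ℂ} (h : 2 ≤ w.re) : twu 1 w = w := by
  apply twu_of
  right
  have h1 : (log (exp w)).re = w.re := by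
    rw [Complex.log_re, Complex.norm_exp, Real.log_exp]
  have h2 := (abs_le.1 (Complex.abs_re_le_norm (log (exp w)))).2
  linarith

theorem log_exp_disc {v : ℂ} (j : ℤ) (h : ‖v‖ < 3) : log (exp (j * per + v)) = v := by
  rw [add_comm, exp_int_per, log_exp_small h]

theorem twu_disc {v : ℂ} (j : ℤ) (h : ‖v‖ ≤ 1) : twu 1 (j * per + v) = j * per + v := by
  apply twu_of
  left
  rw [log_exp_disc j (by linarith)]
  exact h

theorem twu_seg {v : ℝ} (j : ℤ) (h1 : 1 ≤ v) (h2 : v ≤ 2) :
    twu 1 (j * per + v) = j * per + exp (-(v * per)) * v := by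
  have hv : ‖(v : ℂ)‖ = v := by rw [Complex.norm_real, Real.norm_eq_abs, abs_of_pos (by linarith)]
  unfold twu lam
  rw [log_exp_disc j (by rw [hv]; linarith), hv, alpha_mid h1 h2]
  have e : exp (((1 : ℤ) : ℂ) * ((2 - v : ℝ) : ℂ) * per) = exp (-(v * per)) := by
    rw [exp_eq]
    refine ⟨2, ?_⟩
    push_cast
    ring
  rw [e]
  ring

end Pool.Agent.Q193.MC
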