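import Pool.Agent.Q193.MC.Val

/-!
# The stabiliser has infinitely generated first homology
-/

set_option autoImplicit false

open scoped unitInterval Topology TensorProduct
open Complex (exp log)

namespace Pool.Agent.Q193.MC

/-- The winding numbers of `ρ`. -/
def Win (ρ : homeoRel surf bdry) (w : ℕ → ℤ) : Prop :=
  ∃ R, Lift ρ.1 R ∧ ∀ n : ℕ, IsW (pt ((n : ℤ) + 1)) R (w n)

theorem exists_Win {ρ : homeoRel surf bdry}
    (hρ : ρ ∈ stabHomeo surf bdry marks marks_subset angle) : ∃ w, Win ρ w := by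
  obtain ⟨R, hR⟩ := exists_lift ρ hρ
  have h : ∀ n : ℕ, ∃ c : ℤ, IsW (pt ((n : ℤ) + 1)) R c := fun n => exists_W hR ρ.1.injective _
  choose w hw using h
  exact ⟨w, R, hR, hw⟩

theorem Win.mul {ρ τ : homeoRel surf bdry} {w w' : ℕ → ℤ} (h : Win ρ w) (h' : Win τ w') :
    Win (ρ * τ) (w + w') := by
  obtain ⟨R, hR, hw⟩ := h
  obtain ⟨S, hS, hw'⟩ := h'
  refine ⟨R ∘ S, hR.comp hS, fun n => ?_⟩
  exact (hw n).comp (hw' n) hS.cont (hS.fix _ exp_qt_out) (hS.fix _ (exp_pt_out 0))

theorem Win.unique {ρ : homeoRel surf bdry} {w w' : ℕ → ℤ} (h : Win ρ w) (h' : Win ρ w') :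
    w = w' := by
  obtain ⟨R, hR, hw⟩ := h
  obtain ⟨S, hS, hw'⟩ := h'
  have e := hR.unique hS
  subst e
  funext n
  exact (hw n).unique (hw' n)

theorem Win.iso {ρ : homeoRel surf bdry} (h : ρ ∈ isoSub surf bdry) : Win ρ 0 := by
  obtain ⟨R, hR, hw⟩ := isoId_W h
  exact ⟨R, hR, fun n => hw _⟩

theorem Win.elt (k : ℤ) : Win (elt k) (fun n => if -k = (n : ℤ) + 1 then 1 else 0) :=
  ⟨eltu k, lift_elt k, fun n => elt_W k (by omega)⟩

/-- The stabiliser. -/
noncomputable abbrev Stab : Subgroup (MCG surf bdry) := mcgStab surf bdry marks marks_subset angle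

/-- The winding numbers of a mapping class. -/
def PW (x : Stab) (w : ℕ → ℤ) : Prop :=
  ∃ ρ ∈ stabHomeo surf bdry marks marks_subset angle,
    QuotientGroup.mk' (isoSub surf bdry) ρ = x ∧ Win ρ w

theorem exists_PW (x : Stab) : ∃ w, PW x w := by
  obtain ⟨ρ, hρ, hx⟩ := x.2
  obtain ⟨w, hw⟩ := exists_Win hρ
  exact ⟨w, ρ, hρ, hx, hw⟩

theorem PW.unique {x : Stab} {w w' : ℕ → ℤ} (h : PW x w) (h' : PW x w') : w = w' := by
  obtain ⟨ρ, hρ, hx, hw⟩ := h
  obtain ⟨τ, hτ, hx', hw'⟩ := h'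
  have h1 : ρ⁻¹ * τ ∈ isoSub surf bdry := by
    rw [← QuotientGroup.eq]
    exact hx.trans hx'.symm
  have h2 := hw.mul (Win.iso h1)
  rw [mul_inv_cancel_left, add_zero] at h2
  exact h2.unique hw'

theorem PW.mul {x y : Stab} {w w' : ℕ → ℤ} (h : PW x w) (h' : PW y w') : PW (x * y) (w + w') := by
  obtain ⟨ρ, hρ, hx, hw⟩ := h
  obtain ⟨τ, hτ, hy, hw'⟩ := h'
  refine ⟨ρ * τ, mul_mem hρ hτ, ?_, hw.mul hw'⟩
  rw [map_mul, hx, hy]
  rfl

/-- The winding homomorphism. -/
noncomputable def windHom : Stab →* Multiplicative (ℕ → ℤ) :=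
  MonoidHom.mk' (fun x => Multiplicative.ofAdd (exists_PW x).choose) fun x y => by
    change Multiplicative.ofAdd _ = Multiplicative.ofAdd ((exists_PW x).choose +
      (exists_PW y).choose)
    congr 1
    exact (exists_PW (x * y)).choose_spec.unique
      ((exists_PW x).choose_spec.mul (exists_PW y).choose_spec)

theorem windHom_eq {x : Stab} {w : ℕ → ℤ} (h : PW x w) : windHom x = Multiplicative.ofAdd w := by
  change Multiplicative.ofAdd (exists_PW x).choose = _
  congr 1
  exact (exists_PW x).choose_spec.unique h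

/-- The abelianised winding homomorphism. -/
noncomputable def windLin : Additive (Abelianization Stab) →ₗ[ℤ] (ℕ → ℤ) :=
  (MonoidHom.toAdditiveLeft (Abelianization.lift windHom)).toIntLinearMap

theorem windLin_mem (j : ℕ) : Pi.single j (1 : ℤ) ∈ LinearMap.range windLin := by
  have hmem : QuotientGroup.mk' (isoSub surf bdry) (elt (-((j : ℤ) + 1))) ∈ Stab :=
    ⟨_, elt_mem _, rfl⟩
  refine ⟨Additive.ofMul (Abelianization.of (⟨_, hmem⟩ : Stab)), ?_⟩
  have h1 : PW (⟨_, hmem⟩ : Stab) (Pi.single j (1 : ℤ)) := by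
    refine ⟨_, elt_mem _, rfl, ?_⟩
    have h2 := Win.elt (-((j : ℤ) + 1))
    have e : (fun n : ℕ => if -(-((j : ℤ) + 1)) = (n : ℤ) + 1 then (1 : ℤ) else 0) =
        Pi.single j (1 : ℤ) := by
      funext n
      rw [Pi.single_apply]
      by_cases h : n = j
      · rw [if_pos h, if_pos (by omega)]
      · rw [if_neg h, if_neg (by omega)]
    rwa [e] at h2
  have h3 := windHom_eq h1
  change (Multiplicative.toAdd (Abelianization.lift windHom (Abelianization.of _))) = _
  rw [Abelianization.lift_apply_of, h3]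
  rfl

theorem not_finite_ab : ¬ Module.Finite ℤ (Additive (Abelianization Stab)) := by
  intro hfin
  have h1 : Module.Finite ℤ (LinearMap.range windLin) := inferInstance
  have h2 : IsNoetherian ℤ (LinearMap.range windLin) := inferInstance
  have hli : LinearIndependent ℤ (fun j : ℕ => (⟨Pi.single j (1 : ℤ), windLin_mem j⟩ :
      LinearMap.range windLin)) := by
    apply LinearIndependent.of_comp (LinearMap.range windLin).subtype
    exact Pi.linearIndependent_single_one ℕ ℤ
  have h3 := hli.finite_of_isNoetherian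
  exact not_finite ℕ

theorem not_finite_H1 :
    ¬ Module.Finite ℤ (groupHomology (Rep.trivial ℤ Stab ℤ) 1) := by
  intro hfin
  apply not_finite_ab
  have e1 : groupHomology (Rep.trivial ℤ Stab ℤ) 1 ≃+ (Additive (Abelianization Stab)) ⊗[ℤ] ℤ :=
    groupHomology.H1AddEquivOfIsTrivial (Rep.trivial ℤ Stab ℤ)
  have e2 : (Additive (Abelianization Stab)) ⊗[ℤ] ℤ ≃ₗ[ℤ] Additive (Abelianization Stab) :=
    TensorProduct.rid ℤ _
  exact Module.Finite.equiv (e1.toIntLinearEquiv.trans e2)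

theorem not_fht : ¬ FiniteHomologicalType Stab := by
  rintro ⟨-, h⟩
  exact not_finite_H1 (h (Rep.trivial ℤ Stab ℤ) (inferInstanceAs (Module.Finite ℤ ℤ)) 1)

theorem not_finite_H1' : ¬ FinGenH1 (StabGroup surf bdry marks marks_subset angle) :=
  not_finite_H1

theorem not_fht' : ¬ FiniteHomologicalType (StabGroup surf bdry marks marks_subset angle) :=
  not_fht

end Pool.Agent.Q193.MC
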