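import Pool.Agent.Q193.MC.Defs

/-!
# Lifts to the universal covering of the punctured plane
-/

set_option autoImplicit false

open scoped unitInterval Topology
open Complex (exp log)

namespace Pool.Agent.Q193.MC

/-- The period. -/
noncomputable def per : ℂ := 2 * Real.pi * Complex.I

theorem per_ne_zero : per ≠ 0 := by
  unfold per
  simp [Real.pi_ne_zero]

theorem exp_per (w : ℂ) : exp (w + per) = exp w := Complex.exp_periodic w

theorem exp_int_per (w : ℂ) (n : ℤ) : exp (w + n * per) = exp w :=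
  (Complex.exp_periodic.int_mul n) w

theorem exp_eq_one {z : ℂ} : exp z = 1 ↔ ∃ n : ℤ, z = n * per := Complex.exp_eq_one_iff

theorem exp_eq {z w : ℂ} : exp z = exp w ↔ ∃ n : ℤ, z = w + n * per := Complex.exp_eq_exp_iff_exists_int

/-- A continuous function `d` with `exp d = 1` is constant on preconnected sets. -/
theorem const_of_exp {α : Type*} [TopologicalSpace α] {s : Set α} (hs : IsPreconnected s)
    {d : α → ℂ} (hd : ContinuousOn d s) (h1 : ∀ x ∈ s, exp (d x) = 1) {x y : α} (hx : x ∈ s)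
    (hy : y ∈ s) : d x = d y := by
  -- reduce to the imaginary parts
  have key : ∀ x ∈ s, ∀ y ∈ s, ¬ (d x).im < (d y).im := by
    intro x hx y hy hlt
    obtain ⟨n, hn⟩ := exp_eq_one.1 (h1 x hx)
    obtain ⟨m, hm⟩ := exp_eq_one.1 (h1 y hy)
    have hpi := Real.pi_pos
    have e1 : (d x).im = n * (2 * Real.pi) := by rw [hn, per]; simp
    have e2 : (d y).im = m * (2 * Real.pi) := by rw [hm, per]; simp
    have himg : IsPreconnected ((fun x => (d x).im) '' s) :=
      hs.image _ (Complex.continuous_im.comp_continuousOn hd)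
    have hmem : ((n : ℝ) + 1 / 2) * (2 * Real.pi) ∈ (fun x => (d x).im) '' s := by
      apply himg.Icc_subset ⟨x, hx, rfl⟩ ⟨y, hy, rfl⟩
      simp only
      rw [e1, e2] at hlt
      have hnm : n < m := by
        have : (n : ℝ) < m := lt_of_mul_lt_mul_right hlt (by positivity)
        exact_mod_cast this
      have hnm' : (n : ℝ) + 1 ≤ m := by exact_mod_cast hnm
      rw [e1, e2]
      constructor
      · nlinarith
      · nlinarith
    obtain ⟨z, hz, hzz⟩ := hmem
    obtain ⟨k, hk⟩ := exp_eq_one.1 (h1 z hz)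
    have e3 : (d z).im = k * (2 * Real.pi) := by rw [hk, per]; simp
    simp only at hzz
    rw [e3] at hzz
    have h5 : (k : ℝ) = n + 1 / 2 := mul_right_cancel₀ (by positivity) hzz
    have h6 : (2 * k : ℝ) = 2 * n + 1 := by linarith
    have h7 : 2 * k = 2 * n + 1 := by exact_mod_cast h6
    omega
  have him : (d x).im = (d y).im := le_antisymm (not_lt.1 (key y hy x hx)) (not_lt.1 (key x hx y hy))
  obtain ⟨n, hn⟩ := exp_eq_one.1 (h1 x hx)
  obtain ⟨m, hm⟩ := exp_eq_one.1 (h1 y hy)
  apply Complex.ext _ him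
  rw [hn, hm, per]
  simp

/-- Continuous logarithms on the plane. -/
theorem exists_log {g : ℂ → ℂ} (hg : Continuous g) (h0 : ∀ w, g w ≠ 0) (a e : ℂ)
    (he : exp e = g a) : ∃ u : ℂ → ℂ, Continuous u ∧ u a = e ∧ ∀ w, exp (u w) = g w := by
  obtain ⟨F, ⟨h1, h2⟩, -⟩ := Complex.isCoveringMapOn_exp.existsUnique_continuousMap_lifts
    ⟨g, hg⟩ (a₀ := a) (e₀ := e) he (fun w => h0 w)
  exact ⟨F, F.continuous, h1, fun w => congrFun h2 w⟩

/-- The closed complement of the surface. -/
def outB : Set ℂ := {z | ‖z‖ ≤ 1 / 8 ∨ 8 ≤ ‖z‖ ∨ ‖z - 1 / 2‖ ≤ 1 / 8 ∨ ‖z - 2‖ ≤ 1 / 2}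

theorem surf_closed : IsClosed surf := by
  unfold surf
  apply IsClosed.and (isClosed_le (by fun_prop) (by fun_prop))
  apply IsClosed.and (isClosed_le (by fun_prop) (by fun_prop))
  exact IsClosed.and (isClosed_le (by fun_prop) (by fun_prop))
    (isClosed_le (by fun_prop) (by fun_prop))

theorem outB_closed : IsClosed outB := by
  have e : outB = {z : ℂ | ‖z‖ ≤ 1 / 8} ∪ ({z : ℂ | 8 ≤ ‖z‖} ∪
    ({z : ℂ | ‖z - 1 / 2‖ ≤ 1 / 8} ∪ {z : ℂ | ‖z - 2‖ ≤ 1 / 2})) := rfl
  rw [e]
  exact (isClosed_le (by fun_prop) (by fun_prop)).union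
    ((isClosed_le (by fun_prop) (by fun_prop)).union
      ((isClosed_le (by fun_prop) (by fun_prop)).union (isClosed_le (by fun_prop) (by fun_prop))))

theorem mem_outB_of_notMem {z : ℂ} (h : z ∉ surf) : z ∈ outB := by
  by_contra h'
  apply h
  simp only [outB, Set.mem_ofPred_eq, not_or, not_le] at h'
  exact ⟨h'.1.le, h'.2.1.le, h'.2.2.1.le, h'.2.2.2.le⟩

theorem surf_union_outB : surf ∪ outB = Set.univ := by
  rw [Set.eq_univ_iff_forall]
  intro z
  by_cases h : z ∈ surf
  · exact Or.inl h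
  · exact Or.inr (mem_outB_of_notMem h)

theorem mem_bdry_of_outB {z : surf} (h : (z : ℂ) ∈ outB) : z ∈ bdry := by
  obtain ⟨h1, h2, h3, h4⟩ := z.2
  rcases h with h | h | h | h
  · exact Or.inl (le_antisymm h h1)
  · exact Or.inr (Or.inl (le_antisymm h2 h))
  · exact Or.inr (Or.inr (Or.inl (le_antisymm h h3)))
  · exact Or.inr (Or.inr (Or.inr (le_antisymm h h4)))

theorem mem_outB_of_bdry {z : surf} (h : z ∈ bdry) : (z : ℂ) ∈ outB := by
  rcases h with h | h | h | h
  · exact Or.inl h.le
  · exact Or.inr (Or.inl h.ge)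
  · exact Or.inr (Or.inr (Or.inl h.le))
  · exact Or.inr (Or.inr (Or.inr h.le))

theorem glue {α β : Type*} [TopologicalSpace α] [TopologicalSpace β] {π : α → ℂ}
    (hπ : Continuous π) {g : α → β} (h1 : ContinuousOn g (π ⁻¹' surf))
    (h2 : ContinuousOn g (π ⁻¹' outB)) : Continuous g := by
  have := h1.union_of_isClosed h2 (surf_closed.preimage hπ) (outB_closed.preimage hπ)
  rw [← Set.preimage_union, surf_union_outB, Set.preimage_univ] at this
  exact continuousOn_univ.1 this

section family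

set_option linter.unusedSectionVars false

variable {T : Type} [TopologicalSpace T] (H : T × surf → surf)

open Classical in
/-- The quotient `ρ(z) / z`, extended by `1`. -/
noncomputable def gfun (x : T × ℂ) : ℂ :=
  if h : exp x.2 ∈ surf then (H (x.1, ⟨exp x.2, h⟩) : ℂ) * exp (-x.2) else 1

theorem gfun_surf (t : T) (w : ℂ) (h : exp w ∈ surf) :
    gfun H (t, w) = (H (t, ⟨exp w, h⟩) : ℂ) * exp (-w) := by
  unfold gfun
  rw [dif_pos h]

theorem exp_mul_gfun (t : T) (w : ℂ) (h : exp w ∈ surf) :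
    exp w * gfun H (t, w) = H (t, ⟨exp w, h⟩) := by
  rw [gfun_surf H t w h, mul_left_comm, ← Complex.exp_add]
  simp

theorem gfun_ne_zero (x : T × ℂ) : gfun H x ≠ 0 := by
  unfold gfun
  split_ifs with h
  · exact mul_ne_zero (surf_ne_zero _) (Complex.exp_ne_zero _)
  · exact one_ne_zero

theorem gfun_per (t : T) (w : ℂ) : gfun H (t, w + per) = gfun H (t, w) := by
  by_cases h : exp w ∈ surf
  · have h' : exp (w + per) ∈ surf := by rwa [exp_per]
    rw [gfun_surf H t w h, gfun_surf H t _ h']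
    have h2 : exp (-(w + per)) = exp (-w) := by
      rw [Complex.exp_neg, Complex.exp_neg, exp_per]
    rw [h2]
    congr 3
    simp only [exp_per]
  · have h' : ¬ exp (w + per) ∈ surf := by rwa [exp_per]
    unfold gfun
    rw [dif_neg h, dif_neg h']

variable {H} (hH : Continuous H) (hB : ∀ t, ∀ z ∈ bdry, H (t, z) = z)

include hB in
theorem gfun_out (t : T) {w : ℂ} (hw : exp w ∈ outB) : gfun H (t, w) = 1 := by
  by_cases h : exp w ∈ surf
  · rw [gfun_surf H t w h, hB t _ (mem_bdry_of_outB (z := ⟨exp w, h⟩) hw), ← Complex.exp_add]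
    simp
  · unfold gfun
    rw [dif_neg h]

include hH hB in
theorem continuous_gfun : Continuous (gfun H) := by
  apply glue (π := fun x : T × ℂ => exp x.2) (by fun_prop)
  · rw [continuousOn_iff_continuous_domRestrict]
    have : ((fun x : T × ℂ => exp x.2) ⁻¹' surf).domRestrict (gfun H) = fun x =>
        (H (x.1.1, ⟨exp x.1.2, x.2⟩) : ℂ) * exp (-x.1.2) := by
      funext x
      exact gfun_surf H x.1.1 x.1.2 x.2
    rw [this]
    have h1 : Continuous fun x : ((fun x : T × ℂ => exp x.2) ⁻¹' surf) =>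
        ((x.1.1, ⟨exp x.1.2, x.2⟩) : T × surf) := by
      refine Continuous.prodMk (by fun_prop) ?_
      exact Continuous.subtype_mk (by fun_prop) _
    exact (continuous_subtype_val.comp (hH.comp h1)).mul (by fun_prop)
  · refine (continuousOn_const (c := (1 : ℂ))).congr ?_
    rintro ⟨t, w⟩ hw
    exact gfun_out hB t hw

end family

/-- `R` is a lift of `ρ` to the universal covering of the punctured plane. -/
structure Lift (ρ : surf → surf) (R : ℂ → ℂ) : Prop where
  cont : Continuous R
  cover : ∀ w (h : exp w ∈ surf), exp (R w) = ρ ⟨exp w, h⟩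
  fix : ∀ w, exp w ∈ outB → R w = w
  per : ∀ w, R (w + per) = R w + per

theorem Lift.comp {ρ τ : surf → surf} {R S : ℂ → ℂ} (hR : Lift ρ R) (hS : Lift τ S) :
    Lift (ρ ∘ τ) (R ∘ S) where
  cont := hR.cont.comp hS.cont
  cover w h := by
    have h1 := hS.cover w h
    have h2 : exp (S w) ∈ surf := by rw [h1]; exact (τ _).2
    change exp (R (S w)) = ρ (τ _)
    rw [hR.cover _ h2]
    congr 2
    exact Subtype.ext h1
  fix w h := by
    change R (S w) = w
    rw [hS.fix w h, hR.fix w h]
  per w := by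
    change R (S (w + Pool.Agent.Q193.MC.per)) = R (S w) + _
    rw [hS.per, hR.per]

theorem Lift.id : Lift id id where
  cont := continuous_id
  cover _ _ := rfl
  fix _ _ := rfl
  per _ := rfl

theorem Lift.int_per {ρ : surf → surf} {R : ℂ → ℂ} (hR : Lift ρ R) (w : ℂ) (n : ℤ) :
    R (w + n * Pool.Agent.Q193.MC.per) = R w + n * Pool.Agent.Q193.MC.per := by
  have h1 : Function.Periodic (fun w => R w - w) Pool.Agent.Q193.MC.per := by
    intro w
    simp only
    rw [hR.per]
    ring
  have h2 : R (w + n * Pool.Agent.Q193.MC.per) - (w + n * Pool.Agent.Q193.MC.per) = R w - w :=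
    h1.int_mul n w
  linear_combination h2

theorem Lift.inj {ρ : surf → surf} {R : ℂ → ℂ} (hR : Lift ρ R) (hρ : Function.Injective ρ)
    {w w' : ℂ} (h : R w = R w') : w = w' := by
  have key : exp w = exp w' → w = w' := by
    intro he
    obtain ⟨n, hn⟩ := exp_eq.1 he
    rw [hn, hR.int_per] at h
    have : (n : ℂ) * Pool.Agent.Q193.MC.per = 0 := by linear_combination h
    rw [hn, this, add_zero]
  by_cases h1 : exp w ∈ surf
  · by_cases h2 : exp w' ∈ surf
    · apply key
      have h3 := hR.cover w h1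
      rw [h, hR.cover w' h2] at h3
      exact congrArg Subtype.val (hρ (Subtype.ext h3)).symm
    · exfalso
      have h3 := hR.cover w h1
      rw [h, hR.fix w' (mem_outB_of_notMem h2)] at h3
      exact h2 (h3 ▸ (ρ _).2)
  · by_cases h2 : exp w' ∈ surf
    · exfalso
      have h3 := hR.cover w' h2
      rw [← h, hR.fix w (mem_outB_of_notMem h1)] at h3
      exact h1 (h3 ▸ (ρ _).2)
    · rw [hR.fix w (mem_outB_of_notMem h1), hR.fix w' (mem_outB_of_notMem h2)] at h
      exact h

theorem Lift.unique {ρ : surf → surf} {R R' : ℂ → ℂ} (hR : Lift ρ R) (hR' : Lift ρ R') :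
    R = R' := by
  have h10 : exp (10 : ℂ) ∈ outB := by
    right; left
    rw [Complex.norm_exp]
    have : (8 : ℝ) ≤ 10 + 1 := by norm_num
    exact this.trans (by simpa using Real.add_one_le_exp (10 : ℝ))
  funext w
  have := const_of_exp (isPreconnected_univ (α := ℂ)) (d := fun w => R w - R' w)
    (hR.cont.sub hR'.cont).continuousOn (fun w _ => ?_) (Set.mem_univ w) (Set.mem_univ (10 : ℂ))
  · simp only [hR.fix 10 h10, hR'.fix 10 h10, sub_self] at this
    exact sub_eq_zero.1 this
  · rw [Complex.exp_sub, div_eq_one_iff_eq (Complex.exp_ne_zero _)]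
    by_cases h : exp w ∈ surf
    · rw [hR.cover w h, hR'.cover w h]
    · rw [hR.fix w (mem_outB_of_notMem h), hR'.fix w (mem_outB_of_notMem h)]

end Pool.Agent.Q193.MC
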