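import Pool.Agent.Q193.MC.Lift

/-!
# Homeomorphisms which preserve the class of the angle map lift
-/

set_option autoImplicit false

open scoped unitInterval Topology
open Complex (exp log)

namespace Pool.Agent.Q193.MC

theorem log8_lt : Real.log 8 < 10 := by
  have := Real.log_le_sub_one_of_pos (by norm_num : (0 : ℝ) < 8)
  linarith

theorem log8_pos : 0 < Real.log 8 := Real.log_pos (by norm_num)

theorem norm_exp_ge {w : ℂ} : 8 ≤ ‖exp w‖ ↔ Real.log 8 ≤ w.re := by
  rw [Complex.norm_exp, Real.log_le_iff_le_exp (by norm_num)]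

theorem norm_exp_le {w : ℂ} : ‖exp w‖ ≤ 1 / 8 ↔ w.re ≤ -Real.log 8 := by
  rw [Complex.norm_exp, ← Real.le_log_iff_exp_le (by norm_num), one_div, Real.log_inv]

theorem exists_L (ρ : homeoRel surf bdry) : ∃ L : ℂ → ℂ, Continuous L ∧
    (∀ w (h : exp w ∈ surf), exp (w + L w) = ρ.1 ⟨exp w, h⟩) ∧
    (∀ w, exp w ∈ outB → exp (L w) = 1) ∧
    (∀ w, L (w + per) = L w) ∧ (∀ w : ℂ, Real.log 8 ≤ w.re → L w = 0) := by
  obtain ⟨H, hHdef⟩ : ∃ H : Unit × surf → surf, H = fun x => ρ.1 x.2 := ⟨_, rfl⟩
  have hH : Continuous H := by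
    rw [hHdef]
    have := ρ.1.continuous
    fun_prop
  have hB : ∀ t, ∀ z ∈ bdry, H (t, z) = z := by
    intro t z hz
    rw [hHdef]
    exact ρ.2 z hz
  have hg : Continuous fun w => gfun H ((), w) :=
    (continuous_gfun hH hB).comp (by fun_prop : Continuous fun w : ℂ => ((), w))
  have h10 : exp (10 : ℂ) ∈ outB := by
    right; left
    rw [norm_exp_ge]
    simpa using log8_lt.le
  obtain ⟨L, hL, hL10, hexp⟩ := exists_log hg (fun w => gfun_ne_zero H _) 10 0 (by
    rw [gfun_out hB () h10, Complex.exp_zero])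
  have hout : ∀ w, exp w ∈ outB → exp (L w) = 1 := by
    intro w hw
    rw [hexp, gfun_out hB () hw]
  have h8 : ∀ w : ℂ, Real.log 8 ≤ w.re → L w = 0 := by
    intro w hw
    rw [← hL10]
    refine const_of_exp (s := {w : ℂ | Real.log 8 ≤ w.re}) (convex_halfSpace_re_ge _).isPreconnected
      hL.continuousOn ?_ hw ?_
    · intro x hx
      exact hout x (Or.inr (Or.inl (norm_exp_ge.2 hx)))
    · simpa using log8_lt.le
  refine ⟨L, hL, ?_, hout, ?_, h8⟩
  · intro w h
    rw [Complex.exp_add, hexp, exp_mul_gfun H () w h, hHdef]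
  · intro w
    have := const_of_exp (isPreconnected_univ (α := ℂ)) (d := fun w => L (w + per) - L w)
      (by fun_prop) (fun w _ => ?_) (Set.mem_univ w) (Set.mem_univ (10 : ℂ))
    · rw [hL10, h8 (10 + per) (by simpa [per] using log8_lt.le), sub_zero] at this
      exact sub_eq_zero.1 this
    · rw [Complex.exp_sub, hexp, hexp, gfun_per, div_self (gfun_ne_zero H _)]

/-! ### The connected set through the marked points -/

/-- A connected subset of the preimage of the surface. -/
def tree : Set ℂ :=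
  ((((fun t : ℝ => ((-Real.log 8 : ℝ) : ℂ) + t * Complex.I) '' Set.univ ∪
    (fun t : ℝ => (t : ℂ) + Real.pi * Complex.I) '' Set.Icc (-Real.log 8) (Real.log 8)) ∪
    (fun t : ℝ => ((Real.log 8 : ℝ) : ℂ) + t * Complex.I) '' Set.univ) ∪
    (fun t : ℝ => (t : ℂ)) '' Set.Icc (-Real.log 8) (Real.log (3 / 8))) ∪
    (fun t : ℝ => (t : ℂ)) '' Set.Icc (Real.log (5 / 2)) (Real.log 8)

theorem log_eighth : -Real.log 8 ≤ Real.log (3 / 8) := by
  rw [← Real.log_inv]
  exact Real.log_le_log (by norm_num) (by norm_num)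

theorem log_five : Real.log (5 / 2) ≤ Real.log 8 :=
  Real.log_le_log (by norm_num) (by norm_num)

theorem tree_preconnected : IsPreconnected tree := by
  have h8 := log8_pos
  unfold tree
  refine IsPreconnected.union ((Real.log 8 : ℝ) : ℂ) ?_ ?_ ?_ ?_
  · left; right
    exact ⟨0, trivial, by simp⟩
  · exact ⟨Real.log 8, ⟨log_five, le_rfl⟩, rfl⟩
  · refine IsPreconnected.union ((-Real.log 8 : ℝ) : ℂ) ?_ ?_ ?_ ?_
    · left; left
      exact ⟨0, trivial, by simp⟩
    · exact ⟨-Real.log 8, ⟨le_rfl, log_eighth⟩, rfl⟩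
    · refine IsPreconnected.union (((Real.log 8 : ℝ) : ℂ) + Real.pi * Complex.I) ?_ ?_ ?_ ?_
      · right
        exact ⟨Real.log 8, ⟨by linarith, le_rfl⟩, rfl⟩
      · exact ⟨Real.pi, trivial, rfl⟩
      · refine IsPreconnected.union (((-Real.log 8 : ℝ) : ℂ) + Real.pi * Complex.I) ?_ ?_ ?_ ?_
        · exact ⟨Real.pi, trivial, rfl⟩
        · exact ⟨-Real.log 8, ⟨le_rfl, by linarith⟩, rfl⟩
        · exact isPreconnected_univ.image _ (by fun_prop)
        · exact isPreconnected_Icc.image _ (by fun_prop)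
      · exact isPreconnected_univ.image _ (by fun_prop)
    · exact isPreconnected_Icc.image _ (by fun_prop)
  · exact isPreconnected_Icc.image _ (by fun_prop)

theorem surf_of_norm_eq {z : ℂ} (h : ‖z‖ = 8 ∨ ‖z‖ = 1 / 8) : z ∈ surf := by
  have h1 := norm_sub_norm_le z (1 / 2)
  have h2 := norm_sub_norm_le z 2
  have h3 := norm_sub_norm_le (1 / 2) z
  have h4 := norm_sub_norm_le 2 z
  rw [norm_sub_rev] at h3 h4
  have e1 : ‖(1 / 2 : ℂ)‖ = 1 / 2 := by norm_num
  have e2 : ‖(2 : ℂ)‖ = 2 := by norm_num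
  rw [e1] at h1 h3
  rw [e2] at h2 h4
  rcases h with h | h
  · refine ⟨by linarith, by linarith, by linarith, by linarith⟩
  · refine ⟨by linarith, by linarith, by linarith, by linarith⟩

theorem surf_of_real {x : ℝ} (h : (1 / 8 ≤ x ∧ x ≤ 3 / 8) ∨ (5 / 2 ≤ x ∧ x ≤ 8) ∨
    (-8 ≤ x ∧ x ≤ -1 / 8)) : (x : ℂ) ∈ surf := by
  have e1 : ‖(x : ℂ)‖ = |x| := by rw [Complex.norm_real, Real.norm_eq_abs]
  have e2 : ‖(x : ℂ) - 1 / 2‖ = |x - 1 / 2| := by
    rw [← Real.norm_eq_abs, ← Complex.norm_real]; push_cast; rfl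
  have e3 : ‖(x : ℂ) - 2‖ = |x - 2| := by
    rw [← Real.norm_eq_abs, ← Complex.norm_real]; push_cast; rfl
  unfold surf
  rw [Set.mem_ofPred_eq, e1, e2, e3]
  rcases h with ⟨h1, h2⟩ | ⟨h1, h2⟩ | ⟨h1, h2⟩
  · rw [abs_of_pos (by linarith : 0 < x), abs_of_neg (by linarith : x - 1 / 2 < 0),
      abs_of_neg (by linarith : x - 2 < 0)]
    refine ⟨by linarith, by linarith, by linarith, by linarith⟩
  · rw [abs_of_pos (by linarith : 0 < x), abs_of_pos (by linarith : 0 < x - 1 / 2),
      abs_of_pos (by linarith : 0 < x - 2)]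
    refine ⟨by linarith, by linarith, by linarith, by linarith⟩
  · rw [abs_of_neg (by linarith : x < 0), abs_of_neg (by linarith : x - 1 / 2 < 0),
      abs_of_neg (by linarith : x - 2 < 0)]
    refine ⟨by linarith, by linarith, by linarith, by linarith⟩

theorem tree_surf {w : ℂ} (hw : w ∈ tree) : exp w ∈ surf := by
  rcases hw with (((⟨t, -, rfl⟩ | ⟨t, ⟨h1, h2⟩, rfl⟩) | ⟨t, -, rfl⟩) | ⟨t, ⟨h1, h2⟩, rfl⟩) |
    ⟨t, ⟨h1, h2⟩, rfl⟩
  · apply surf_of_norm_eq
    right
    rw [Complex.norm_exp]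
    simp only [Complex.add_re, Complex.ofReal_re, Complex.mul_I_re, Complex.ofReal_im, neg_zero,
      add_zero]
    rw [Real.exp_neg, Real.exp_log (by norm_num), one_div]
  · have e : exp ((t : ℂ) + Real.pi * Complex.I) = ((-Real.exp t : ℝ) : ℂ) := by
      rw [Complex.exp_add, Complex.exp_pi_mul_I]
      push_cast
      ring
    simp only [e]
    apply surf_of_real
    right; right
    have h3 := Real.exp_le_exp.2 h1
    have h4 := Real.exp_le_exp.2 h2
    rw [Real.exp_neg, Real.exp_log (by norm_num)] at h3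
    rw [Real.exp_log (by norm_num)] at h4
    constructor <;> linarith
  · apply surf_of_norm_eq
    left
    rw [Complex.norm_exp]
    simp only [Complex.add_re, Complex.ofReal_re, Complex.mul_I_re, Complex.ofReal_im, neg_zero,
      add_zero]
    rw [Real.exp_log (by norm_num)]
  · simp only
    rw [← Complex.ofReal_exp]
    apply surf_of_real
    left
    have h3 := Real.exp_le_exp.2 h1
    have h4 := Real.exp_le_exp.2 h2
    rw [Real.exp_neg, Real.exp_log (by norm_num)] at h3
    rw [Real.exp_log (by norm_num)] at h4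
    constructor <;> linarith
  · simp only
    rw [← Complex.ofReal_exp]
    apply surf_of_real
    right; left
    have h3 := Real.exp_le_exp.2 h1
    have h4 := Real.exp_le_exp.2 h2
    rw [Real.exp_log (by norm_num)] at h3
    rw [Real.exp_log (by norm_num)] at h4
    constructor <;> linarith

theorem angle_exp {z : surf} {w : ℂ} (h : (z : ℂ) = exp w) : angle z = Circle.exp w.im := by
  apply Subtype.ext
  change (z : ℂ) / ‖(z : ℂ)‖ = Circle.exp w.im
  rw [h, Circle.coe_exp, Complex.norm_exp, Complex.ofReal_exp, ← Complex.exp_sub]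
  congr 1
  apply Complex.ext <;> simp

/-- The real points. -/
theorem exp_real_log {x : ℝ} (hx : 0 < x) : exp ((Real.log x : ℝ) : ℂ) = x := by
  rw [← Complex.ofReal_exp, Real.exp_log hx]

/-- For a homeomorphism in the stabiliser, the logarithm vanishes at the marked points. -/
theorem marks_L (ρ : homeoRel surf bdry)
    (hρ : ρ ∈ stabHomeo surf bdry marks marks_subset angle) {L : ℂ → ℂ} (hL : Continuous L)
    (h1 : ∀ w (h : exp w ∈ surf), exp (w + L w) = ρ.1 ⟨exp w, h⟩)
    (h2 : ∀ w, exp w ∈ outB → exp (L w) = 1)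
    (h3 : ∀ w : ℂ, Real.log 8 ≤ w.re → L w = 0) {a : ℂ} (ha : a ∈ tree)
    (hm : (⟨exp a, tree_surf ha⟩ : surf) ∈ marks) : L a = 0 := by
  -- a homotopy from `angle ∘ ρ` to `angle`
  have hρ' := (stabHomeo surf bdry marks marks_subset angle).inv_mem hρ
  obtain ⟨F⟩ := hρ'
  have hinc : Continuous fun w : tree => (⟨exp (w : ℂ), tree_surf w.2⟩ : surf) :=
    Continuous.subtype_mk (by fun_prop) _
  let K : C(I × tree, Circle) := ⟨fun x => F (x.1, ⟨exp (x.2 : ℂ), tree_surf x.2.2⟩), by
    have := F.continuous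
    exact this.comp (continuous_fst.prodMk (hinc.comp continuous_snd))⟩
  let f₀ : C(tree, ℝ) := ⟨fun w => ((w : ℂ) + L w).im, by fun_prop⟩
  have hK0 : ∀ w : tree, K (0, w) = Circle.exp (f₀ w) := by
    intro w
    change F (0, (⟨exp (w : ℂ), tree_surf w.2⟩ : surf)) = _
    rw [F.apply_zero]
    change angle ((((ρ⁻¹ : homeoRel surf bdry)⁻¹ : homeoRel surf bdry)).1 _) = _
    rw [inv_inv]
    exact angle_exp (h1 _ (tree_surf w.2)).symm
  let G := Circle.isCoveringMap_exp.liftHomotopy K f₀ hK0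
  have hG : ∀ x, Circle.exp (G x) = K x := fun x =>
    congrFun (Circle.isCoveringMap_exp.liftHomotopy_lifts K f₀ hK0) x
  have hG0 : ∀ w, G (0, w) = f₀ w := fun w =>
    Circle.isCoveringMap_exp.liftHomotopy_zero K f₀ hK0 w
  -- at the marked points the lift is constant
  have hconst : ∀ w : tree, (⟨exp (w : ℂ), tree_surf w.2⟩ : surf) ∈ marks → G (1, w) = f₀ w := by
    intro w hw
    rw [← hG0]
    have hc : Continuous fun t : I => G (t, w) := by
      have := G.continuous
      fun_prop
    refine Circle.isCoveringMap_exp.const_of_comp (g := fun t : I => G (t, w)) hc ?_ 1 0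
    intro t t'
    rw [hG, hG]
    change F (t, _) = F (t', _)
    rw [F.eq_fst t hw, F.eq_fst t' hw]
  -- at time one the lift differs from the argument by a constant
  have hend : ∀ w w' : tree, G (1, w) - (w : ℂ).im = G (1, w') - (w' : ℂ).im := by
    intro w w'
    have : PreconnectedSpace tree := isPreconnected_iff_preconnectedSpace.1 tree_preconnected
    have hd : Continuous fun w : tree => ((G (1, w) - (w : ℂ).im : ℝ) : ℂ) * Complex.I := by
      have := G.continuous
      fun_prop
    have h5 := const_of_exp (isPreconnected_univ (α := tree)) (d := fun w : tree =>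
      ((G (1, w) - (w : ℂ).im : ℝ) : ℂ) * Complex.I) hd.continuousOn ?_
      (Set.mem_univ w) (Set.mem_univ w')
    · have h6 := mul_right_cancel₀ Complex.I_ne_zero h5
      exact_mod_cast h6
    · intro w _
      have h7 : Circle.exp (G (1, w) - (w : ℂ).im) = 1 := by
        rw [Circle.exp_sub, hG]
        change F (1, _) / _ = 1
        rw [F.apply_one]
        rw [angle_exp (w := (w : ℂ)) rfl, div_self']
      have h8 := congrArg (Subtype.val) h7
      rw [← Circle.coe_exp]
      simpa using h8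
  -- the outer marked point
  have hb : ((Real.log 8 : ℝ) : ℂ) ∈ tree := by
    right
    exact ⟨Real.log 8, ⟨log_five, le_rfl⟩, rfl⟩
  have hbm : (⟨exp ((Real.log 8 : ℝ) : ℂ), tree_surf hb⟩ : surf) ∈ marks := by
    right; left
    simp only
    rw [exp_real_log (by norm_num)]
    norm_num
  have e1 := hend ⟨a, ha⟩ ⟨_, hb⟩
  rw [hconst ⟨a, ha⟩ hm, hconst ⟨_, hb⟩ hbm] at e1
  have e2 : L ((Real.log 8 : ℝ) : ℂ) = 0 := h3 _ (by rw [Complex.ofReal_re])
  have e3 : (L a).im = 0 := by
    change (a + L a).im - a.im = (((Real.log 8 : ℝ) : ℂ) + L ((Real.log 8 : ℝ) : ℂ)).im -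
      ((Real.log 8 : ℝ) : ℂ).im at e1
    rw [e2] at e1
    simpa using e1
  have hout : exp a ∈ outB := mem_outB_of_bdry (marks_subset hm)
  obtain ⟨n, hn⟩ := exp_eq_one.1 (h2 a hout)
  have e4 : (n : ℝ) * (2 * Real.pi) = 0 := by
    rw [hn] at e3
    simpa [per] using e3
  have e5 : (n : ℝ) = 0 := by
    rcases mul_eq_zero.1 e4 with h | h
    · exact h
    · exact absurd h (by positivity)
  have e6 : (n : ℂ) = 0 := by exact_mod_cast e5
  rw [hn, e6, zero_mul]

/-- The two holes, in the logarithmic coordinate. -/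
theorem hole_log {c r : ℝ} (hrc : r < c) {L : ℂ → ℂ} (hL : Continuous L)
    (hout : ∀ z ∈ Metric.closedBall (c : ℂ) r, z ∈ outB)
    (h2 : ∀ w, exp w ∈ outB → exp (L w) = 1) (hper : ∀ w, L (w + per) = L w)
    {a : ℂ} (ha : exp a ∈ Metric.closedBall (c : ℂ) r) (hLa : L a = 0) {w : ℂ}
    (hw : exp w ∈ Metric.closedBall (c : ℂ) r) : L w = 0 := by
  have hslit : ∀ z ∈ Metric.closedBall (c : ℂ) r, z ∈ Complex.slitPlane := by
    intro z hz
    rw [Metric.mem_closedBall, dist_eq_norm] at hz
    left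
    have h1 := (abs_le.1 ((Complex.abs_re_le_norm (z - c)).trans hz)).1
    rw [Complex.sub_re, Complex.ofReal_re] at h1
    linarith
  have hlog : ContinuousOn log (Metric.closedBall (c : ℂ) r) := fun z hz =>
    (continuousAt_clog (hslit z hz)).continuousWithinAt
  have hconn : IsPreconnected (log '' Metric.closedBall (c : ℂ) r) :=
    (convex_closedBall (c : ℂ) r).isPreconnected.image _ hlog
  have hper' : Function.Periodic L per := hper
  have key : ∀ w : ℂ, L w = L (log (exp w)) := by
    intro w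
    obtain ⟨n, hn⟩ := exp_eq.1 (Complex.exp_log (Complex.exp_ne_zero w))
    rw [hn]
    exact (hper'.int_mul n w).symm
  rw [key w, ← hLa, key a]
  refine const_of_exp hconn hL.continuousOn ?_ ⟨_, hw, rfl⟩ ⟨_, ha, rfl⟩
  rintro _ ⟨z, hz, rfl⟩
  apply h2
  rw [Complex.exp_log (Complex.slitPlane_ne_zero (hslit z hz))]
  exact hout z hz

/-- Each homeomorphism in the stabiliser has a lift. -/
theorem exists_lift (ρ : homeoRel surf bdry)
    (hρ : ρ ∈ stabHomeo surf bdry marks marks_subset angle) : ∃ R, Lift ρ.1 R := by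
  obtain ⟨L, hL, h1, h2, h4, h3⟩ := exists_L ρ
  have hmk := fun {a : ℂ} (ha : a ∈ tree) hm => marks_L ρ hρ hL h1 h2 h3 ha hm
  have hinner : L ((-Real.log 8 : ℝ) : ℂ) = 0 := by
    refine hmk (by left; left; left; left; exact ⟨0, trivial, by simp⟩) ?_
    left
    simp only
    rw [← Complex.ofReal_exp, Real.exp_neg, Real.exp_log (by norm_num)]
    norm_num
  have hp : L ((Real.log (3 / 8) : ℝ) : ℂ) = 0 := by
    refine hmk (by left; right; exact ⟨_, ⟨log_eighth, le_rfl⟩, rfl⟩) ?_
    right; right; left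
    simp only
    rw [exp_real_log (by norm_num)]
    norm_num
  have hq : L ((Real.log (5 / 2) : ℝ) : ℂ) = 0 := by
    refine hmk (by right; exact ⟨_, ⟨le_rfl, log_five⟩, rfl⟩) ?_
    right; right; right
    simp only
    rw [exp_real_log (by norm_num)]
    norm_num
  have hL0 : ∀ w, exp w ∈ outB → L w = 0 := by
    rintro w (hw | hw | hw | hw)
    · rw [← hinner]
      refine const_of_exp (s := {w : ℂ | w.re ≤ -Real.log 8})
        (convex_halfSpace_re_le _).isPreconnected hL.continuousOn ?_ (norm_exp_le.1 hw) ?_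
      · intro x hx
        exact h2 x (Or.inl (norm_exp_le.2 hx))
      · change ((-Real.log 8 : ℝ) : ℂ).re ≤ _
        rw [Complex.ofReal_re]
    · exact h3 w (norm_exp_ge.1 hw)
    · refine hole_log (c := 1 / 2) (r := 1 / 8) (by norm_num) hL ?_ h2 h4
        (a := ((Real.log (3 / 8) : ℝ) : ℂ)) ?_ hp ?_
      · intro z hz
        rw [Metric.mem_closedBall, dist_eq_norm] at hz
        right; right; left
        simpa using hz
      · rw [exp_real_log (by norm_num), Metric.mem_closedBall, dist_eq_norm, ← Complex.ofReal_sub,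
          Complex.norm_real]
        norm_num
      · rw [Metric.mem_closedBall, dist_eq_norm]
        simpa using hw
    · refine hole_log (c := 2) (r := 1 / 2) (by norm_num) hL ?_ h2 h4
        (a := ((Real.log (5 / 2) : ℝ) : ℂ)) ?_ hq ?_
      · intro z hz
        rw [Metric.mem_closedBall, dist_eq_norm] at hz
        right; right; right
        simpa using hz
      · rw [exp_real_log (by norm_num), Metric.mem_closedBall, dist_eq_norm, ← Complex.ofReal_sub,
          Complex.norm_real]
        norm_num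
      · rw [Metric.mem_closedBall, dist_eq_norm]
        simpa using hw
  refine ⟨fun w => w + L w, ?_, h1, ?_, ?_⟩
  · fun_prop
  · intro w hw
    rw [hL0 w hw, add_zero]
  · intro w
    rw [h4]
    ring

end Pool.Agent.Q193.MC
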