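import Pool.Agent.Q193.MC.Wind

/-!
# The homeomorphisms
-/

set_option autoImplicit false

open scoped unitInterval Topology
open Complex (exp log)

namespace Pool.Agent.Q193.MC

/-! ### Cut-off functions -/

/-- `1` on `[3/2, 3]`, `0` off `[1, 4]`. -/
noncomputable def phi (s : ℝ) : ℝ := max 0 (min 1 (min (2 * s - 2) (4 - s)))

/-- `1` on `(-∞, 1]`, `0` on `[2, ∞)`. -/
noncomputable def alpha (s : ℝ) : ℝ := max 0 (min 1 (2 - s))

theorem continuous_phi : Continuous phi := by unfold phi; fun_prop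

theorem continuous_alpha : Continuous alpha := by unfold alpha; fun_prop

theorem phi_zero {s : ℝ} (h : s ≤ 1 ∨ 4 ≤ s) : phi s = 0 := by
  unfold phi
  apply max_eq_left
  rcases h with h | h
  · exact (min_le_right _ _).trans ((min_le_left _ _).trans (by linarith))
  · exact (min_le_right _ _).trans ((min_le_right _ _).trans (by linarith))

theorem phi_one {s : ℝ} (h : 3 / 2 ≤ s) (h' : s ≤ 3) : phi s = 1 := by
  unfold phi
  rw [min_eq_left (le_min (by linarith) (by linarith)), max_eq_right zero_le_one]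

theorem alpha_one {s : ℝ} (h : s ≤ 1) : alpha s = 1 := by
  unfold alpha
  rw [min_eq_left (by linarith), max_eq_right zero_le_one]

theorem alpha_zero {s : ℝ} (h : 2 ≤ s) : alpha s = 0 := by
  unfold alpha
  apply max_eq_left
  exact (min_le_right _ _).trans (by linarith)

theorem alpha_mid {s : ℝ} (h : 1 ≤ s) (h' : s ≤ 2) : alpha s = 2 - s := by
  unfold alpha
  rw [min_eq_right (by linarith), max_eq_right (by linarith)]

theorem phi_outB {z : ℂ} (hz : z ∈ outB) : phi ‖z‖ = 0 ∨ phi ‖z‖ = 1 := by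
  rcases hz with h | h | h | h
  · exact Or.inl (phi_zero (Or.inl (by linarith)))
  · exact Or.inl (phi_zero (Or.inr (by linarith)))
  · left
    apply phi_zero
    left
    have h1 := norm_sub_norm_le z (1 / 2)
    have e1 : ‖(1 / 2 : ℂ)‖ = 1 / 2 := by norm_num
    rw [e1] at h1
    linarith
  · right
    have h1 := norm_sub_norm_le z 2
    have h2 := norm_sub_norm_le 2 z
    rw [norm_sub_rev] at h2
    have e1 : ‖(2 : ℂ)‖ = 2 := by norm_num
    rw [e1] at h1 h2
    exact phi_one (by linarith) (by linarith)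

theorem surf_of_norm {z : ℂ} (h : (1 < ‖z‖ ∧ ‖z‖ < 3 / 2) ∨ (3 < ‖z‖ ∧ ‖z‖ < 4)) : z ∈ surf := by
  have h1 := norm_sub_norm_le z (1 / 2)
  have e1 : ‖(1 / 2 : ℂ)‖ = 1 / 2 := by norm_num
  have h2 := norm_sub_norm_le z 2
  have h3 := norm_sub_norm_le 2 z
  rw [norm_sub_rev] at h3
  have e2 : ‖(2 : ℂ)‖ = 2 := by norm_num
  rw [e1] at h1
  rw [e2] at h2 h3
  rcases h with ⟨h4, h5⟩ | ⟨h4, h5⟩
  · exact ⟨by linarith, by linarith, by linarith, by linarith⟩
  · exact ⟨by linarith, by linarith, by linarith, by linarith⟩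

theorem phi_cases {z : ℂ} (_hz : z ∈ surf) : phi ‖z‖ = 0 ∨ phi ‖z‖ = 1 ∨
    (1 < ‖z‖ ∧ ‖z‖ < 3 / 2) ∨ (3 < ‖z‖ ∧ ‖z‖ < 4) := by
  by_cases h1 : ‖z‖ ≤ 1
  · exact Or.inl (phi_zero (Or.inl h1))
  by_cases h2 : 4 ≤ ‖z‖
  · exact Or.inl (phi_zero (Or.inr h2))
  by_cases h3 : ‖z‖ < 3 / 2
  · exact Or.inr (Or.inr (Or.inl ⟨not_le.1 h1, h3⟩))
  by_cases h4 : ‖z‖ ≤ 3
  · exact Or.inr (Or.inl (phi_one (not_lt.1 h3) h4))
  · exact Or.inr (Or.inr (Or.inr ⟨not_le.1 h4, not_le.1 h2⟩))

/-! ### The rotations `S k` -/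

/-- Upstairs. -/
noncomputable def Sku (k : ℤ) (w : ℂ) : ℂ := w + k * (phi (Real.exp w.re) : ℂ) * per

theorem continuous_Sku (k : ℤ) : Continuous (Sku k) := by
  unfold Sku
  have := continuous_phi
  fun_prop

theorem per_re : per.re = 0 := by simp [per]

theorem per_im : per.im = 2 * Real.pi := by simp [per]

theorem Sku_re (k : ℤ) (w : ℂ) : (Sku k w).re = w.re := by
  unfold Sku per
  simp

theorem Sku_add (k l : ℤ) (w : ℂ) : Sku k (Sku l w) = Sku (k + l) w := by
  have h := Sku_re l w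
  rw [Sku, h, Sku, Sku]
  push_cast
  ring

theorem Sku_zero (w : ℂ) : Sku 0 w = w := by simp [Sku]

theorem Sku_per (k : ℤ) (w : ℂ) : Sku k (w + per) = Sku k w + per := by
  unfold Sku
  rw [Complex.add_re, per_re, add_zero]
  ring

theorem norm_exp_re (w : ℂ) : Real.exp w.re = ‖exp w‖ := (Complex.norm_exp w).symm

/-- Downstairs. -/
noncomputable def Skd (k : ℤ) (z : ℂ) : ℂ := z * exp (k * (phi ‖z‖ : ℂ) * per)

theorem exp_Sku (k : ℤ) (w : ℂ) : exp (Sku k w) = Skd k (exp w) := by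
  unfold Sku Skd
  rw [Complex.exp_add, norm_exp_re]

theorem norm_Skd (k : ℤ) (z : ℂ) : ‖Skd k z‖ = ‖z‖ := by
  unfold Skd per
  rw [norm_mul, Complex.norm_exp]
  simp

theorem Skd_add (k l : ℤ) (z : ℂ) : Skd k (Skd l z) = Skd (k + l) z := by
  have h := norm_Skd l z
  rw [Skd, h, Skd, Skd, mul_assoc, ← Complex.exp_add]
  push_cast
  ring_nf

theorem Skd_zero (z : ℂ) : Skd 0 z = z := by simp [Skd]

theorem Skd_of_phi {k : ℤ} {z : ℂ} (h : phi ‖z‖ = 0 ∨ phi ‖z‖ = 1) : Skd k z = z := by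
  unfold Skd
  rcases h with h | h
  · rw [h]; simp
  · rw [h]
    have : exp (k * ((1 : ℝ) : ℂ) * per) = 1 := exp_eq_one.2 ⟨k, by simp⟩
    rw [this, mul_one]

theorem Skd_surf (k : ℤ) {z : ℂ} (hz : z ∈ surf) : Skd k z ∈ surf := by
  rcases phi_cases hz with h | h | h
  · rwa [Skd_of_phi (Or.inl h)]
  · rwa [Skd_of_phi (Or.inr h)]
  · apply surf_of_norm
    rwa [norm_Skd]

theorem continuous_Skd (k : ℤ) : Continuous (Skd k) := by
  unfold Skd
  have := continuous_phi
  fun_prop

/-- The rotation as a homeomorphism of the surface. -/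
noncomputable def Sk (k : ℤ) : surf ≃ₜ surf where
  toFun z := ⟨Skd k z, Skd_surf k z.2⟩
  invFun z := ⟨Skd (-k) z, Skd_surf (-k) z.2⟩
  left_inv z := by
    apply Subtype.ext
    change Skd (-k) (Skd k z) = z
    rw [Skd_add, neg_add_cancel, Skd_zero]
  right_inv z := by
    apply Subtype.ext
    change Skd k (Skd (-k) z) = z
    rw [Skd_add, add_neg_cancel, Skd_zero]
  continuous_toFun := Continuous.subtype_mk ((continuous_Skd k).comp continuous_subtype_val) _
  continuous_invFun := Continuous.subtype_mk ((continuous_Skd (-k)).comp continuous_subtype_val) _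

theorem Sk_bdry (k : ℤ) : Sk k ∈ homeoRel surf bdry := by
  intro z hz
  apply Subtype.ext
  exact Skd_of_phi (phi_outB (mem_outB_of_bdry hz))

/-! ### The twist -/

/-- The logarithm of the quotient of the twist and the identity. -/
noncomputable def lam (m : ℤ) (z : ℂ) : ℂ := (exp (m * (alpha ‖log z‖ : ℂ) * per) - 1) * log z

theorem lam_of {m : ℤ} {z : ℂ} (h : ‖log z‖ ≤ 1 ∨ 2 ≤ ‖log z‖) : lam m z = 0 := by
  unfold lam
  rcases h with h | h
  · rw [alpha_one h]
    have : exp (m * ((1 : ℝ) : ℂ) * per) = 1 := exp_eq_one.2 ⟨m, by simp⟩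
    rw [this, sub_self, zero_mul]
  · rw [alpha_zero h]
    simp

theorem log_exp_small {v : ℂ} (h : ‖v‖ < 3) : log (exp v) = v := by
  have h1 := Complex.abs_im_le_norm v
  have h2 := abs_le.1 h1
  have h3 := Real.pi_gt_three
  exact Complex.log_exp (by linarith [h2.1]) (by linarith [h2.2])

theorem continuousOn_lam (m : ℤ) : ContinuousOn (lam m) {z : ℂ | z ≠ 0} := by
  intro z hz
  apply ContinuousAt.continuousWithinAt
  by_cases h : z ∈ Complex.slitPlane
  · have h1 : ContinuousAt log z := continuousAt_clog h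
    have h2 := continuous_alpha
    unfold lam
    fun_prop
  · -- near the negative axis the function vanishes
    have hK : IsClosed (exp '' Metric.closedBall (0 : ℂ) 2) :=
      ((isCompact_closedBall (0 : ℂ) 2).image Complex.continuous_exp).isClosed
    have hzK : z ∉ exp '' Metric.closedBall (0 : ℂ) 2 := by
      rintro ⟨v, hv, rfl⟩
      rw [Metric.mem_closedBall, dist_zero_right] at hv
      apply h
      rw [Complex.mem_slitPlane_iff_arg]
      refine ⟨?_, Complex.exp_ne_zero v⟩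
      rw [← Complex.log_im, log_exp_small (by linarith)]
      have h1 := (abs_le.1 (Complex.abs_im_le_norm v)).2
      have h3 := Real.pi_gt_three
      linarith
    have hev : ∀ᶠ y in 𝓝 z, lam m y = 0 := by
      have h4 : ∀ᶠ y in 𝓝 z, y ∉ exp '' Metric.closedBall (0 : ℂ) 2 :=
        hK.isOpen_compl.mem_nhds hzK
      have h5 : ∀ᶠ y in 𝓝 z, y ≠ 0 := continuousAt_id.eventually_ne hz
      filter_upwards [h4, h5] with y hy hy0
      apply lam_of
      right
      by_contra hlt
      apply hy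
      refine ⟨log y, ?_, Complex.exp_log hy0⟩
      rw [Metric.mem_closedBall, dist_zero_right]
      exact (not_le.1 hlt).le
    exact (continuousAt_const (y := (0 : ℂ))).congr (hev.mono fun y hy => hy.symm)

/-- The twist, downstairs. -/
noncomputable def twd (m : ℤ) (z : ℂ) : ℂ := z * exp (lam m z)

theorem twd_of {m : ℤ} {z : ℂ} (h : ‖log z‖ ≤ 1 ∨ 2 ≤ ‖log z‖) : twd m z = z := by
  unfold twd
  rw [lam_of h, Complex.exp_zero, mul_one]

theorem twd_eq {m : ℤ} {z : ℂ} (h : z ≠ 0) :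
    twd m z = exp (exp (m * (alpha ‖log z‖ : ℂ) * per) * log z) := by
  unfold twd lam
  conv_lhs => rw [← Complex.exp_log h]
  rw [Complex.log_exp (Complex.neg_pi_lt_log_im z) (Complex.log_im_le_pi z), ← Complex.exp_add]
  congr 1
  ring

theorem norm_rot (m : ℤ) (s : ℝ) (v : ℂ) : ‖exp (m * (s : ℂ) * per) * v‖ = ‖v‖ := by
  unfold per
  rw [norm_mul, Complex.norm_exp]
  simp

theorem twd_inv {m : ℤ} {z : ℂ} (h : z ≠ 0) : twd (-m) (twd m z) = z := by
  by_cases h2 : 2 ≤ ‖log z‖
  · rw [twd_of (Or.inr h2), twd_of (Or.inr h2)]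
  · have h3 : ‖exp (m * (alpha ‖log z‖ : ℂ) * per) * log z‖ < 3 := by
      rw [norm_rot]
      linarith [not_le.1 h2]
    rw [twd_eq h, twd_eq (Complex.exp_ne_zero _), log_exp_small h3, norm_rot, ← mul_assoc,
      ← Complex.exp_add]
    have : ((-m : ℤ) : ℂ) * (alpha ‖log z‖ : ℂ) * per + m * (alpha ‖log z‖ : ℂ) * per = 0 := by
      push_cast
      ring
    rw [this, Complex.exp_zero, one_mul, Complex.exp_log h]

theorem log_hole {c : ℝ} (hc : 0 < c) (hlog : |Real.log c| ≤ 7 / 10) {z : ℂ}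
    (hz : ‖z - c‖ ≤ c / 4) : ‖log z‖ ≤ 1 := by
  obtain ⟨δ, hδ⟩ : ∃ δ : ℂ, δ = (z - c) / c := ⟨_, rfl⟩
  have hc0 : (c : ℂ) ≠ 0 := by exact_mod_cast hc.ne'
  have h1 : ‖δ‖ ≤ 1 / 4 := by
    rw [hδ, norm_div, Complex.norm_real, Real.norm_eq_abs, abs_of_pos hc, div_le_iff₀ hc]
    linarith
  have h2 : z = c * (1 + δ) := by
    rw [hδ]
    field_simp
    ring
  have h3 : 1 + δ ≠ 0 := by
    intro h
    have : δ = -1 := by linear_combination h
    rw [this] at h1
    norm_num at h1
  rw [h2, Complex.log_ofReal_mul hc h3]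
  have h4 := Complex.norm_log_one_add_le (z := δ) (by linarith)
  have h5 : ‖((Real.log c : ℝ) : ℂ) + log (1 + δ)‖ ≤ |Real.log c| + ‖log (1 + δ)‖ := by
    refine (norm_add_le _ _).trans ?_
    rw [Complex.norm_real, Real.norm_eq_abs]
  have h6 : ‖δ‖ ^ 2 * (1 - ‖δ‖)⁻¹ / 2 ≤ 1 / 24 := by
    have h7 : (1 - ‖δ‖)⁻¹ ≤ 4 / 3 := by
      rw [inv_le_comm₀ (by linarith) (by norm_num)]
      linarith
    have h8 : ‖δ‖ ^ 2 ≤ 1 / 16 := by nlinarith [norm_nonneg δ]
    have h9 : 0 ≤ (1 - ‖δ‖)⁻¹ := inv_nonneg.2 (by linarith)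
    nlinarith [sq_nonneg ‖δ‖]
  linarith

theorem log_two_abs : |Real.log 2| ≤ 7 / 10 := by
  have h1 := Real.log_two_lt_d9
  have h2 := Real.log_two_gt_d9
  rw [abs_of_pos (by linarith)]
  linarith

theorem log_half_abs : |Real.log (1 / 2)| ≤ 7 / 10 := by
  rw [one_div, Real.log_inv, abs_neg]
  exact log_two_abs

theorem log8_gt : 2 < Real.log 8 := by
  have h1 := Real.log_two_gt_d9
  have : Real.log 8 = 3 * Real.log 2 := by
    rw [show (8 : ℝ) = 2 ^ 3 by norm_num, Real.log_pow]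
    norm_num
  rw [this]
  linarith

theorem log_outB {z : ℂ} (hz0 : z ≠ 0) (hz : z ∈ outB) : ‖log z‖ ≤ 1 ∨ 2 ≤ ‖log z‖ := by
  have hre : Real.log ‖z‖ = (log z).re := (Complex.log_re z).symm
  have h8 := log8_gt
  rcases hz with h | h | h | h
  · right
    have h1 : Real.log ‖z‖ ≤ Real.log (1 / 8) := Real.log_le_log (norm_pos_iff.2 hz0) h
    rw [one_div, Real.log_inv, hre] at h1
    have h2 := (abs_le.1 (Complex.abs_re_le_norm (log z))).1
    linarith
  · right
    have h1 : Real.log 8 ≤ Real.log ‖z‖ := Real.log_le_log (by norm_num) h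
    rw [hre] at h1
    have h2 := (abs_le.1 (Complex.abs_re_le_norm (log z))).2
    linarith
  · left
    refine log_hole (c := 1 / 2) (by norm_num) log_half_abs ?_
    have e : ((1 / 2 : ℝ) : ℂ) = 1 / 2 := by norm_num
    rw [e]
    linarith
  · left
    refine log_hole (c := 2) (by norm_num) log_two_abs ?_
    have e : ((2 : ℝ) : ℂ) = 2 := by norm_num
    rw [e]
    linarith

theorem surf_of_log {z : ℂ} (hz : z ≠ 0) (h1 : 1 < ‖log z‖) (h2 : ‖log z‖ < 2) : z ∈ surf := by
  by_contra h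
  rcases log_outB hz (mem_outB_of_notMem h) with h3 | h3
  · linarith
  · linarith

theorem twd_surf (m : ℤ) {z : ℂ} (hz : z ∈ surf) : twd m z ∈ surf := by
  have hz0 : z ≠ 0 := surf_ne_zero ⟨z, hz⟩
  by_cases h1 : ‖log z‖ ≤ 1
  · rwa [twd_of (Or.inl h1)]
  by_cases h2 : 2 ≤ ‖log z‖
  · rwa [twd_of (Or.inr h2)]
  rw [twd_eq hz0]
  have h3 : ‖exp (m * (alpha ‖log z‖ : ℂ) * per) * log z‖ < 3 := by
    rw [norm_rot]
    linarith [not_le.1 h2]
  apply surf_of_log (Complex.exp_ne_zero _)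
  · rw [log_exp_small h3, norm_rot]
    exact not_le.1 h1
  · rw [log_exp_small h3, norm_rot]
    exact not_le.1 h2

theorem continuousOn_twd (m : ℤ) : ContinuousOn (twd m) {z : ℂ | z ≠ 0} :=
  continuousOn_id.mul (Complex.continuous_exp.comp_continuousOn (continuousOn_lam m))

theorem continuous_twd_surf (m : ℤ) : Continuous fun z : surf => twd m (z : ℂ) := by
  have := (continuousOn_twd m).comp_continuous (f := fun z : surf => (z : ℂ))
    continuous_subtype_val (fun z => surf_ne_zero z)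
  exact this

/-- The twist as a homeomorphism of the surface. -/
noncomputable def tw (m : ℤ) : surf ≃ₜ surf where
  toFun z := ⟨twd m z, twd_surf m z.2⟩
  invFun z := ⟨twd (-m) z, twd_surf (-m) z.2⟩
  left_inv z := by
    apply Subtype.ext
    exact twd_inv (surf_ne_zero z)
  right_inv z := by
    apply Subtype.ext
    change twd m (twd (-m) z) = z
    have := twd_inv (m := -m) (surf_ne_zero z)
    rwa [neg_neg] at this
  continuous_toFun := Continuous.subtype_mk (continuous_twd_surf m) _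
  continuous_invFun := Continuous.subtype_mk (continuous_twd_surf (-m)) _

theorem tw_bdry (m : ℤ) : tw m ∈ homeoRel surf bdry := by
  intro z hz
  apply Subtype.ext
  exact twd_of (log_outB (surf_ne_zero z) (mem_outB_of_bdry hz))

/-- The twist, upstairs. -/
noncomputable def twu (m : ℤ) (w : ℂ) : ℂ := w + lam m (exp w)

theorem continuous_twu (m : ℤ) : Continuous (twu m) := by
  unfold twu
  have := (continuousOn_lam m).comp_continuous (f := fun w : ℂ => exp w)
    Complex.continuous_exp (fun w => Complex.exp_ne_zero w)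
  exact continuous_id.add this

theorem lift_tw (m : ℤ) : Lift (tw m) (twu m) where
  cont := continuous_twu m
  cover w h := by
    unfold twu
    rw [Complex.exp_add]
    rfl
  fix w h := by
    unfold twu
    rw [lam_of (log_outB (Complex.exp_ne_zero w) h), add_zero]
  per w := by
    unfold twu
    rw [exp_per]
    ring

end Pool.Agent.Q193.MC
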