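import Pool.Agent.Q193.MC.Elem

/-!
# The winding of the elements
-/

set_option autoImplicit false

open scoped unitInterval Topology
open Complex (exp log)

namespace Pool.Agent.Q193.MC

theorem pt_eq (n : ℤ) : pt n = n * per - ((Real.log 2 : ℝ) : ℂ) := by
  unfold pt
  rw [one_div, Real.log_inv]
  push_cast
  ring

theorem log2_pos : 0 < Real.log 2 := Real.log_pos (by norm_num)

theorem log2_lt : Real.log 2 < 1 := by
  have := Real.log_two_lt_d9
  linarith

/-- Two continuous logarithms on `[1, 2]` have the same increment. -/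
theorem incr {f g : ℝ → ℂ} (hf : ContinuousOn f (Set.Icc 1 2)) (hg : ContinuousOn g (Set.Icc 1 2))
    (h : ∀ v ∈ Set.Icc (1 : ℝ) 2, exp (f v) = exp (g v)) : f 1 - f 2 = g 1 - g 2 := by
  have := const_of_exp (isPreconnected_Icc (a := (1 : ℝ)) (b := 2)) (d := fun v => f v - g v)
    (hf.sub hg) (fun v hv => by
      rw [Complex.exp_sub, div_eq_one_iff_eq (Complex.exp_ne_zero _)]
      exact h v hv) (Set.left_mem_Icc.2 (by norm_num)) (Set.right_mem_Icc.2 (by norm_num))
  linear_combination this

theorem U_jump {n : ℤ} {U : ℂ → ℂ} (hU : Continuous U)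
    (h : ∀ w, exp (U w) * (w - pt n) = twu 1 w - pt n) (j : ℤ) :
    U (j * per + 1) - U (j * per + 2) = if j = n then per else 0 := by
  have hUc : ContinuousOn (fun v : ℝ => U (j * per + v)) (Set.Icc 1 2) := by
    have : Continuous fun v : ℝ => U (j * per + v) := by fun_prop
    exact this.continuousOn
  have hβ := log2_pos
  have hβ1 := log2_lt
  obtain ⟨β, hβd⟩ : ∃ β : ℝ, β = Real.log 2 := ⟨_, rfl⟩
  rw [← hβd] at hβ hβ1
  have hpt : pt n = n * per - β := by rw [pt_eq, hβd]
  rw [hpt] at h
  split_ifs with hjn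
  · subst hjn
    have hs1 : ∀ v ∈ Set.Icc (1 : ℝ) 2, (1 + β * exp (v * per) / v : ℂ) ∈ Complex.slitPlane := by
      intro v hv
      apply Complex.mem_slitPlane_of_norm_lt_one
      have h1 : ‖exp ((v : ℂ) * per)‖ = 1 := by
        unfold per
        rw [Complex.norm_exp]
        simp
      rw [norm_div, norm_mul, h1, mul_one, Complex.norm_real, Complex.norm_real, Real.norm_eq_abs,
        Real.norm_eq_abs, abs_of_pos hβ, abs_of_pos (by linarith [hv.1]),
        div_lt_one (by linarith [hv.1])]
      linarith [hv.1]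
    have hs2 : ∀ v ∈ Set.Icc (1 : ℝ) 2, (1 + β / v : ℂ) ∈ Complex.slitPlane := by
      intro v hv
      apply Complex.mem_slitPlane_of_norm_lt_one
      rw [norm_div, Complex.norm_real, Complex.norm_real, Real.norm_eq_abs,
        Real.norm_eq_abs, abs_of_pos hβ, abs_of_pos (by linarith [hv.1]),
        div_lt_one (by linarith [hv.1])]
      linarith [hv.1]
    have hv0 : ∀ v ∈ Set.Icc (1 : ℝ) 2, (v : ℂ) ≠ 0 := by
      intro v hv
      exact_mod_cast (by linarith [hv.1] : (0 : ℝ) < v).ne'
    have hgc : ContinuousOn (fun v : ℝ => -(v * per) + log (1 + β * exp (v * per) / v)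
        - log (1 + β / v)) (Set.Icc 1 2) := by
      refine ContinuousOn.sub (ContinuousOn.add (by fun_prop) ?_) ?_
      · refine ContinuousOn.clog ?_ hs1
        exact continuousOn_const.add
          (ContinuousOn.div (by fun_prop) (by fun_prop) hv0)
      · refine ContinuousOn.clog ?_ hs2
        exact continuousOn_const.add
          (ContinuousOn.div (by fun_prop) (by fun_prop) hv0)
    have key := incr hUc hgc ?_
    · have e1 : exp per = 1 := exp_eq_one.2 ⟨1, by simp⟩
      have e2 : exp (2 * per) = 1 := exp_eq_one.2 ⟨2, by simp⟩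
      simp only [Complex.ofReal_one, one_mul, e1, mul_one, Complex.ofReal_ofNat, e2] at key
      linear_combination key
    · intro v hv
      have hvβ : (v : ℂ) + β ≠ 0 := by
        have : (0 : ℝ) < v + β := by linarith [hv.1]
        exact_mod_cast this.ne'
      apply mul_right_cancel₀ hvβ
      have h1 := h (j * per + v)
      rw [twu_seg j hv.1 hv.2] at h1
      have h2 : exp (U (j * per + v)) * (v + β) = exp (-(v * per)) * v + β := by
        linear_combination h1
      rw [h2, Complex.exp_sub, Complex.exp_add, Complex.exp_log (Complex.slitPlane_ne_zero (hs1 v hv)),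
        Complex.exp_log (Complex.slitPlane_ne_zero (hs2 v hv))]
      have e3 : exp (-(v * per)) * exp (v * per) = 1 := by
        rw [← Complex.exp_add, neg_add_cancel, Complex.exp_zero]
      have e4 : (1 + β / v : ℂ) = (v + β) / v := by
        rw [add_div, div_self (hv0 v hv)]
      have hv0' := hv0 v hv
      rw [e4]
      field_simp
      linear_combination (-(β : ℂ)) * e3
  · -- the centre is not in the disc
    obtain ⟨b, hb⟩ : ∃ b : ℂ, b = (j - n : ℤ) * per + β := ⟨_, rfl⟩
    have hbn : 2 < ‖b‖ := by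
      have h1 := Complex.abs_im_le_norm b
      have h2 : b.im = (j - n : ℤ) * (2 * Real.pi) := by
        rw [hb, per]
        simp
      have h3 : (1 : ℝ) ≤ |((j - n : ℤ) : ℝ)| := by
        have h4 : (1 : ℤ) ≤ |j - n| := Int.one_le_abs (sub_ne_zero.2 hjn)
        exact_mod_cast h4
      rw [h2, abs_mul, abs_of_pos (by positivity : 0 < 2 * Real.pi)] at h1
      nlinarith [Real.pi_gt_three]
    have hb0 : b ≠ 0 := by
      intro h0
      rw [h0, norm_zero] at hbn
      linarith
    have hs1 : ∀ v ∈ Set.Icc (1 : ℝ) 2, (1 + exp (-(v * per)) * v / b : ℂ) ∈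
        Complex.slitPlane := by
      intro v hv
      apply Complex.mem_slitPlane_of_norm_lt_one
      have h1 : ‖exp (-((v : ℂ) * per))‖ = 1 := by
        unfold per
        rw [Complex.norm_exp]
        simp
      rw [norm_div, norm_mul, h1, one_mul, Complex.norm_real, Real.norm_eq_abs,
        abs_of_pos (by linarith [hv.1]), div_lt_one (by linarith)]
      linarith [hv.2]
    have hs2 : ∀ v ∈ Set.Icc (1 : ℝ) 2, (1 + v / b : ℂ) ∈ Complex.slitPlane := by
      intro v hv
      apply Complex.mem_slitPlane_of_norm_lt_one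
      rw [norm_div, Complex.norm_real, Real.norm_eq_abs,
        abs_of_pos (by linarith [hv.1]), div_lt_one (by linarith)]
      linarith [hv.2]
    have hgc : ContinuousOn (fun v : ℝ => log (1 + exp (-(v * per)) * v / b) - log (1 + v / b))
        (Set.Icc 1 2) := by
      refine ContinuousOn.sub ?_ ?_
      · refine ContinuousOn.clog ?_ hs1
        exact continuousOn_const.add (ContinuousOn.div_const (by fun_prop) b)
      · refine ContinuousOn.clog ?_ hs2
        exact continuousOn_const.add (ContinuousOn.div_const (by fun_prop) b)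
    have key := incr hUc hgc ?_
    · have e1 : exp (-per) = 1 := exp_eq_one.2 ⟨-1, by simp⟩
      have e2 : exp (-(2 * per)) = 1 := exp_eq_one.2 ⟨-2, by simp⟩
      simp only [Complex.ofReal_one, one_mul, e1, Complex.ofReal_ofNat, e2] at key
      linear_combination key
    · intro v hv
      have hvb : b + v ≠ 0 := by
        intro h0
        have h1 : ‖b‖ = v := by
          have : b = -(v : ℂ) := by linear_combination h0
          rw [this, norm_neg, Complex.norm_real, Real.norm_eq_abs, abs_of_pos (by linarith [hv.1])]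
        linarith [hv.2]
      apply mul_right_cancel₀ hvb
      have h1 := h (j * per + v)
      rw [twu_seg j hv.1 hv.2] at h1
      have h2 : exp (U (j * per + v)) * (b + v) = b + exp (-(v * per)) * v := by
        rw [hb]
        push_cast
        linear_combination h1
      rw [h2, Complex.exp_sub, Complex.exp_log (Complex.slitPlane_ne_zero (hs1 v hv)),
        Complex.exp_log (Complex.slitPlane_ne_zero (hs2 v hv))]
      have e4 : (1 + v / b : ℂ) = (b + v) / b := by
        rw [add_div, div_self hb0]
      rw [e4]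
      field_simp

theorem U_right {U : ℂ → ℂ} (hU : Continuous U) (h1 : ∀ w, twu 1 w = w → exp (U w) = 1)
    (j : ℤ) : U (j * per + 2) = U 2 := by
  refine const_of_exp (s := {w : ℂ | 2 ≤ w.re}) (convex_halfSpace_re_ge _).isPreconnected
    hU.continuousOn (fun w hw => h1 w (twu_right hw)) ?_ ?_
  · rw [Set.mem_ofPred_eq, per]
    simp
  · rw [Set.mem_ofPred_eq]
    simp

theorem U_disc {U : ℂ → ℂ} (hU : Continuous U) (h1 : ∀ w, twu 1 w = w → exp (U w) = 1)
    (j : ℤ) {v v' : ℂ} (hv : ‖v‖ ≤ 1) (hv' : ‖v'‖ ≤ 1) : U (j * per + v) = U (j * per + v') := by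
  refine const_of_exp (s := Metric.closedBall ((j : ℂ) * per) 1)
    (convex_closedBall _ _).isPreconnected hU.continuousOn (fun w hw => ?_) ?_ ?_
  · apply h1
    have h2 : ‖w - j * per‖ ≤ 1 := by
      rwa [Metric.mem_closedBall, dist_eq_norm] at hw
    have := twu_disc j h2
    rwa [add_sub_cancel] at this
  · rw [Metric.mem_closedBall, dist_eq_norm, add_sub_cancel_left]
    exact hv
  · rw [Metric.mem_closedBall, dist_eq_norm, add_sub_cancel_left]
    exact hv'

theorem U_val {n : ℤ} {U : ℂ → ℂ} (hU : Continuous U)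
    (h : ∀ w, exp (U w) * (w - pt n) = twu 1 w - pt n)
    (h1 : ∀ w, twu 1 w = w → exp (U w) = 1) (j : ℤ) {v : ℂ} (hv : ‖v‖ ≤ 1) :
    U (j * per + v) = U 2 + if j = n then per else 0 := by
  have e1 := U_jump hU h j
  have e2 := U_right hU h1 j
  have e3 := U_disc hU h1 j hv (v' := 1) (by simp)
  rw [e3, ← e2]
  linear_combination e1

theorem norm_log2 : ‖((Real.log 2 : ℝ) : ℂ)‖ ≤ 1 := by
  rw [Complex.norm_real, Real.norm_eq_abs, abs_of_pos log2_pos]
  exact log2_lt.le

/-- The winding numbers of the elements. -/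
theorem elt_W (k : ℤ) {n : ℤ} (hn : n ≠ 0) :
    IsW (pt n) (eltu k) (if -k = n then 1 else 0) := by
  obtain ⟨ε, hε, hball⟩ := ball_pt n
  -- the logarithm for the twist
  obtain ⟨U, hU, hU1, hU2⟩ := exists_winding (continuous_twu 1) (a := pt n)
    (fun w hw => (lift_tw 1).inj (tw 1).injective (by
      rw [hw, (lift_tw 1).fix _ (exp_pt_out n)])) hε
    (fun w hw => (lift_tw 1).fix w (hball w hw))
  -- the logarithm for the rotation
  have hopen : IsOpen {w : ℂ | ‖exp w‖ < 1} := isOpen_lt (by fun_prop) continuous_const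
  have hmem : pt n ∈ {w : ℂ | ‖exp w‖ < 1} := by
    rw [Set.mem_ofPred_eq, exp_pt]
    norm_num
  obtain ⟨δ, hδ, hδb⟩ := Metric.isOpen_iff.1 hopen _ hmem
  have hSfix : ∀ w : ℂ, ‖exp w‖ < 1 → Sku k w = w := by
    intro w hw
    unfold Sku
    rw [norm_exp_re, phi_zero (Or.inl hw.le)]
    simp
  obtain ⟨W, hW, hW1, hW2⟩ := exists_winding (continuous_Sku k) (a := pt n)
    (fun w hw => by
      have h1 : ‖exp w‖ < 1 := by
        rw [← norm_exp_re, ← Sku_re k w, hw, norm_exp_re]
        exact hmem
      rwa [hSfix w h1] at hw) hδ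
    (fun w hw => hSfix w (hδb hw))
  have hcS := continuous_Sku (-k)
  have hcT := continuous_twu 1
  refine ⟨fun w => -W (Sku (-k) w) + U (Sku (-k) w) + W (twu 1 (Sku (-k) w)), by fun_prop,
    fun w => ?_, ?_⟩
  · obtain ⟨w', hw'⟩ : ∃ w', w' = Sku (-k) w := ⟨_, rfl⟩
    have hw : Sku k w' = w := by rw [hw', Sku_add, add_neg_cancel, Sku_zero]
    simp only [← hw']
    have e1 : exp (W w') * (w' - pt n) = w - pt n := by rw [hW1, hw]
    have e2 := hU1 w'
    have e3 : exp (W (twu 1 w')) * (twu 1 w' - pt n) = eltu k w - pt n := by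
      rw [hW1, hw']
      rfl
    rw [← e3, ← e2, ← e1, Complex.exp_add, Complex.exp_add, Complex.exp_neg]
    have h0 := Complex.exp_ne_zero (W w')
    field_simp
  · -- the values
    have hq : Sku (-k) qt = ((-k : ℤ) : ℂ) * per + ((Real.log 2 : ℝ) : ℂ) := by
      unfold Sku
      rw [norm_exp_re, exp_qt, phi_one (by norm_num) (by norm_num), qt]
      push_cast
      ring
    have hp : Sku (-k) (pt 0) = pt 0 := by
      unfold Sku
      rw [norm_exp_re, exp_pt, phi_zero (Or.inl (by norm_num))]
      simp
    have hp' : pt 0 = ((0 : ℤ) : ℂ) * per + (-((Real.log 2 : ℝ) : ℂ)) := by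
      rw [pt_eq]
      ring
    simp only [hq, hp]
    rw [twu_disc _ norm_log2, (lift_tw 1).fix (pt 0) (exp_pt_out 0),
      U_val hU hU1 hU2 (-k) norm_log2]
    have h3 : U (pt 0) = U 2 := by
      rw [hp', U_val hU hU1 hU2 0 (by rw [norm_neg]; exact norm_log2), if_neg (Ne.symm hn), add_zero]
    rw [h3]
    split_ifs with h4
    · push_cast
      ring
    · push_cast
      ring

end Pool.Agent.Q193.MC
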