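import Pool.Agent.Q193.MC.Stab

/-!
# The winding invariants
-/

set_option autoImplicit false

open scoped unitInterval Topology
open Complex (exp log)

namespace Pool.Agent.Q193.MC

/-- The lifts of the centre `1/2` of the first hole. -/
noncomputable def pt (n : ℤ) : ℂ := ((Real.log (1 / 2) : ℝ) : ℂ) + n * per

/-- A lift of the centre `2` of the second hole. -/
noncomputable def qt : ℂ := ((Real.log 2 : ℝ) : ℂ)

theorem exp_pt (n : ℤ) : exp (pt n) = 1 / 2 := by
  unfold pt
  rw [exp_int_per, exp_real_log (by norm_num)]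
  norm_num

theorem exp_qt : exp qt = 2 := by
  unfold qt
  rw [exp_real_log (by norm_num)]
  norm_num

theorem pt_inj {n m : ℤ} (h : pt n = pt m) : n = m := by
  unfold pt at h
  have h1 : (n : ℂ) * per = m * per := by linear_combination h
  have h2 := mul_right_cancel₀ per_ne_zero h1
  exact_mod_cast h2

theorem qt_ne_pt (n : ℤ) : qt ≠ pt n := by
  intro h
  have h1 := exp_qt
  rw [h, exp_pt] at h1
  norm_num at h1

theorem exp_pt_out (n : ℤ) : exp (pt n) ∈ outB := by
  rw [exp_pt]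
  right; right; left
  norm_num

theorem exp_qt_out : exp qt ∈ outB := by
  rw [exp_qt]
  right; right; right
  norm_num

theorem ball_pt (n : ℤ) : ∃ ε > 0, ∀ w ∈ Metric.ball (pt n) ε, exp w ∈ outB := by
  have h1 : IsOpen {w : ℂ | ‖exp w - 1 / 2‖ < 1 / 8} :=
    isOpen_lt (by fun_prop) continuous_const
  have h2 : pt n ∈ {w : ℂ | ‖exp w - 1 / 2‖ < 1 / 8} := by
    rw [Set.mem_ofPred_eq, exp_pt]
    norm_num
  obtain ⟨ε, hε, h⟩ := Metric.isOpen_iff.1 h1 _ h2
  refine ⟨ε, hε, fun w hw => ?_⟩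
  right; right; left
  exact (h hw).le

section family

set_option linter.unusedSectionVars false

variable {T : Type} [TopologicalSpace T] {a : ℂ} (R : T × ℂ → ℂ)

open Classical in
/-- The quotient `(R w - a) / (w - a)`. -/
noncomputable def qf (a : ℂ) (x : T × ℂ) : ℂ := if x.2 = a then 1 else (R x - a) / (x.2 - a)

theorem continuous_qf {R : T × ℂ → ℂ} (hR : Continuous R) {ε : ℝ} (hε : 0 < ε)
    (hfix : ∀ t, ∀ w ∈ Metric.ball a ε, R (t, w) = w) : Continuous (qf R a) := by
  rw [continuous_iff_continuousAt]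
  rintro ⟨t, w⟩
  by_cases hw : w = a
  · have hev : ∀ᶠ x : T × ℂ in 𝓝 (t, w), qf R a x = 1 := by
      have h1 : ∀ᶠ x : T × ℂ in 𝓝 (t, w), x.2 ∈ Metric.ball a ε := by
        apply continuous_snd.continuousAt.eventually_mem
        rw [hw]
        exact Metric.ball_mem_nhds a hε
      filter_upwards [h1] with x hx
      unfold qf
      split_ifs with h
      · rfl
      · rw [hfix x.1 x.2 hx, div_self (sub_ne_zero.2 h)]
    exact (continuousAt_const (y := (1 : ℂ))).congr (hev.mono fun x hx => hx.symm)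
  · have hev : ∀ᶠ x : T × ℂ in 𝓝 (t, w), qf R a x = (R x - a) / (x.2 - a) := by
      have h1 : ∀ᶠ x : T × ℂ in 𝓝 (t, w), x.2 ≠ a :=
        continuous_snd.continuousAt.eventually_ne hw
      filter_upwards [h1] with x hx
      unfold qf
      rw [if_neg hx]
    refine ContinuousAt.congr ?_ (hev.mono fun x hx => hx.symm)
    refine ContinuousAt.div ?_ ?_ (sub_ne_zero.2 hw)
    · fun_prop
    · fun_prop

theorem qf_ne_zero (h : ∀ t w, R (t, w) = a → w = a) (x : T × ℂ) : qf R a x ≠ 0 := by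
  unfold qf
  split_ifs with hx
  · exact one_ne_zero
  · exact div_ne_zero (sub_ne_zero.2 fun h1 => hx (h x.1 x.2 h1)) (sub_ne_zero.2 hx)

theorem qf_mul (hfix : ∀ t, R (t, a) = a) (t : T) (w : ℂ) :
    qf R a (t, w) * (w - a) = R (t, w) - a := by
  unfold qf
  split_ifs with hx
  · simp only at hx
    rw [hx, hfix, sub_self, mul_zero]
  · exact div_mul_cancel₀ _ (sub_ne_zero.2 hx)

theorem qf_fix {t : T} {w : ℂ} (h : R (t, w) = w) : qf R a (t, w) = 1 := by
  unfold qf
  split_ifs with hx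
  · rfl
  · rw [h]
    exact div_self (sub_ne_zero.2 hx)

end family

/-- A continuous logarithm of `(R w - a) / (w - a)`. -/
theorem exists_winding {a : ℂ} {R : ℂ → ℂ} (hR : Continuous R) (hinj : ∀ w, R w = a → w = a)
    {ε : ℝ} (hε : 0 < ε) (hfix : ∀ w ∈ Metric.ball a ε, R w = w) :
    ∃ u : ℂ → ℂ, Continuous u ∧ (∀ w, exp (u w) * (w - a) = R w - a) ∧
      ∀ w, R w = w → exp (u w) = 1 := by
  obtain ⟨R', hR'⟩ : ∃ R' : Unit × ℂ → ℂ, R' = fun x => R x.2 := ⟨_, rfl⟩
  have hc : Continuous R' := by rw [hR']; fun_prop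
  have hf : ∀ t, ∀ w ∈ Metric.ball a ε, R' (t, w) = w := by
    intro t w hw; rw [hR']; exact hfix w hw
  have ha : R a = a := hfix a (Metric.mem_ball_self hε)
  have hq := continuous_qf hc hε hf
  obtain ⟨u, hu, -, hexp⟩ := exists_log (g := fun w => qf R' a ((), w))
    (hq.comp (by fun_prop)) (fun w => qf_ne_zero R' (by
      intro t w h; rw [hR'] at h; exact hinj w h) _) a 0 (by
      rw [Complex.exp_zero, qf_fix]
      rw [hR']; exact ha)
  refine ⟨u, hu, fun w => ?_, fun w hw => ?_⟩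
  · rw [hexp, qf_mul R' (by intro t; rw [hR']; exact ha), hR']
  · rw [hexp, qf_fix]
    rw [hR']
    exact hw

/-- `c` is the winding of `R` around `a`. -/
def IsW (a : ℂ) (R : ℂ → ℂ) (c : ℤ) : Prop :=
  ∃ u : ℂ → ℂ, Continuous u ∧ (∀ w, exp (u w) * (w - a) = R w - a) ∧
    u qt - u (pt 0) = c * per

theorem IsW.unique {a : ℂ} {R : ℂ → ℂ} {c c' : ℤ} (h : IsW a R c) (h' : IsW a R c') : c = c' := by
  obtain ⟨u, hu, hR, hc⟩ := h
  obtain ⟨u', hu', hR', hc'⟩ := h'
  have h1 : ∀ w, exp (u w - u' w) = 1 := by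
    have hcl : IsClosed {w : ℂ | exp (u w - u' w) = 1} :=
      isClosed_eq (by fun_prop) continuous_const
    have hsub : ({a}ᶜ : Set ℂ) ⊆ {w : ℂ | exp (u w - u' w) = 1} := by
      intro w hw
      have h2 : w - a ≠ 0 := sub_ne_zero.2 hw
      rw [Set.mem_ofPred_eq, Complex.exp_sub, div_eq_one_iff_eq (Complex.exp_ne_zero _)]
      apply mul_right_cancel₀ h2
      rw [hR, hR']
    have hd : Dense ({a}ᶜ : Set ℂ) := dense_compl_singleton a
    have := hcl.closure_subset_iff.2 hsub
    rw [hd.closure_eq] at this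
    exact fun w => this (Set.mem_univ w)
  have h3 := const_of_exp (isPreconnected_univ (α := ℂ)) (d := fun w => u w - u' w)
    (by fun_prop) (fun w _ => h1 w) (Set.mem_univ qt) (Set.mem_univ (pt 0))
  have h4 : (c : ℂ) * per = c' * per := by
    rw [← hc, ← hc']
    linear_combination h3
  have h5 := mul_right_cancel₀ per_ne_zero h4
  exact_mod_cast h5

theorem IsW.comp {a : ℂ} {R R' : ℂ → ℂ} {c c' : ℤ} (h : IsW a R c) (h' : IsW a R' c')
    (hR' : Continuous R') (hq : R' qt = qt) (hp : R' (pt 0) = pt 0) :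
    IsW a (R ∘ R') (c + c') := by
  obtain ⟨u, hu, hR, hc⟩ := h
  obtain ⟨u', hu', hR'', hc'⟩ := h'
  refine ⟨fun w => u (R' w) + u' w, by fun_prop, fun w => ?_, ?_⟩
  · rw [Complex.exp_add, mul_assoc, hR'', hR]
    rfl
  · simp only [hq, hp]
    push_cast
    linear_combination hc + hc'

theorem exists_W {ρ : surf → surf} {R : ℂ → ℂ} (hR : Lift ρ R) (hρ : Function.Injective ρ)
    (n : ℤ) : ∃ c : ℤ, IsW (pt n) R c := by
  obtain ⟨ε, hε, hball⟩ := ball_pt n
  have hinj : ∀ w, R w = pt n → w = pt n := by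
    intro w hw
    apply hR.inj hρ
    rw [hw, hR.fix _ (exp_pt_out n)]
  obtain ⟨u, hu, h1, h2⟩ := exists_winding hR.cont hinj hε
    (fun w hw => hR.fix w (hball w hw))
  obtain ⟨m, hm⟩ := exp_eq_one.1 (h2 qt (hR.fix _ exp_qt_out))
  obtain ⟨m', hm'⟩ := exp_eq_one.1 (h2 (pt 0) (hR.fix _ (exp_pt_out 0)))
  refine ⟨m - m', u, hu, h1, ?_⟩
  rw [hm, hm']
  push_cast
  ring

/-- Homotopy lifting for the exponential. -/
theorem exists_log_homotopy {g : I × ℂ → ℂ} (hg : Continuous g) (h0 : ∀ x, g x ≠ 0)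
    (h1 : ∀ w, g (0, w) = 1) : ∃ u : I × ℂ → ℂ, Continuous u ∧ (∀ x, exp (u x) = g x) ∧
      (∀ w, u (0, w) = 0) ∧ ∀ w, (∀ t, g (t, w) = 1) → ∀ t, u (t, w) = 0 := by
  let K : C(I × ℂ, {z : ℂ // z ≠ 0}) := ⟨fun x => ⟨g x, h0 x⟩, Continuous.subtype_mk hg _⟩
  have hK : ∀ w : ℂ, K (0, w) = (⟨exp ((ContinuousMap.const ℂ (0 : ℂ)) w),
      Complex.exp_ne_zero _⟩ : {z : ℂ // z ≠ 0}) := by
    intro w
    apply Subtype.ext
    change g (0, w) = exp 0
    rw [h1, Complex.exp_zero]
  let G := Complex.isCoveringMap_exp.liftHomotopy K (ContinuousMap.const ℂ (0 : ℂ)) hK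
  have hG : ∀ x, exp (G x) = g x := fun x =>
    congrArg Subtype.val (congrFun
      (Complex.isCoveringMap_exp.liftHomotopy_lifts K (ContinuousMap.const ℂ (0 : ℂ)) hK) x)
  have hG0 : ∀ w, G (0, w) = 0 := fun w =>
    Complex.isCoveringMap_exp.liftHomotopy_zero K (ContinuousMap.const ℂ (0 : ℂ)) hK w
  refine ⟨G, G.continuous, hG, hG0, fun w hw t => ?_⟩
  rw [← hG0 w]
  have hc : Continuous fun t : I => G (t, w) := by
    have := G.continuous
    fun_prop
  exact const_of_exp (isPreconnected_univ (α := I)) (d := fun t : I => G (t, w)) hc.continuousOn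
    (fun t _ => by rw [hG, hw]) (Set.mem_univ t) (Set.mem_univ 0)

/-- A homeomorphism isotopic to the identity has a lift with winding zero. -/
theorem isoId_W {ρ : homeoRel surf bdry} (hρ : IsoId surf bdry ρ) :
    ∃ R, Lift ρ.1 R ∧ ∀ n : ℤ, IsW (pt n) R 0 := by
  obtain ⟨H, H0, H1, H2⟩ := hρ
  have hB : ∀ t, ∀ z ∈ bdry, H (t, z) = z := by
    intro t z hz
    obtain ⟨h, hh⟩ := H2 t
    rw [hh]
    exact h.2 z hz
  have hinj : ∀ t, Function.Injective fun z => H (t, z) := by
    intro t z z' hz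
    obtain ⟨h, hh⟩ := H2 t
    simp only [hh] at hz
    exact h.1.injective hz
  obtain ⟨L, hL, hexp, hL0, hLc⟩ := exists_log_homotopy (continuous_gfun H.continuous hB)
    (gfun_ne_zero _) (fun w => by
      by_cases h : exp w ∈ surf
      · rw [gfun_surf _ _ _ h, H0, ← Complex.exp_add]
        simp
      · exact gfun_out hB 0 (mem_outB_of_notMem h))
  have hlift : ∀ t, Lift (fun z => H (t, z)) (fun w => w + L (t, w)) := by
    intro t
    refine ⟨by fun_prop, fun w h => ?_, fun w hw => ?_, fun w => ?_⟩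
    · rw [Complex.exp_add, hexp, exp_mul_gfun _ t w h]
    · rw [hLc w (fun t => gfun_out hB t hw) t, add_zero]
    · have h5 := const_of_exp (isPreconnected_univ (α := I))
        (d := fun t : I => L (t, w + per) - L (t, w)) (by fun_prop) (fun t _ => ?_)
        (Set.mem_univ t) (Set.mem_univ 0)
      · simp only [hL0, sub_self] at h5
        linear_combination h5
      · rw [Complex.exp_sub, hexp, hexp, gfun_per, div_self (gfun_ne_zero _ _)]
  refine ⟨fun w => w + L (1, w), ?_, fun n => ?_⟩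
  · have e : (ρ.1 : surf → surf) = fun z => H (1, z) := by
      funext z
      rw [H1]
    rw [e]
    exact hlift 1
  · obtain ⟨ε, hε, hball⟩ := ball_pt n
    obtain ⟨R, hRdef⟩ : ∃ R : I × ℂ → ℂ, R = fun x => x.2 + L x := ⟨_, rfl⟩
    have hR : Continuous R := by rw [hRdef]; fun_prop
    have hRt : ∀ t w, R (t, w) = w + L (t, w) := by intro t w; rw [hRdef]
    have hfix : ∀ t, ∀ w, exp w ∈ outB → R (t, w) = w := by
      intro t w hw
      rw [hRt]
      exact (hlift t).fix w hw
    obtain ⟨u, hu, hue, hu0, huc⟩ := exists_log_homotopy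
      (continuous_qf (a := pt n) hR hε fun t w hw => hfix t w (hball w hw))
      (qf_ne_zero R (fun t w h => by
        apply (hlift t).inj (hinj t)
        rw [← hRt, h]
        exact ((hlift t).fix _ (exp_pt_out n)).symm))
      (fun w => qf_fix R (by rw [hRt, hL0, add_zero]))
    refine ⟨fun w => u (1, w), by fun_prop, fun w => ?_, ?_⟩
    · rw [hue, qf_mul R (fun t => hfix t _ (exp_pt_out n)), hRt]
    · simp only
      rw [huc qt (fun t => qf_fix R (hfix t _ exp_qt_out)) 1,
        huc (pt 0) (fun t => qf_fix R (hfix t _ (exp_pt_out 0))) 1]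
      simp

end Pool.Agent.Q193.MC
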